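import Mathlib

/-!
# The image of a skew operator
-/

namespace Pool.Agent.MP_f8720a_ag.HK

variable {F g : Type} [Field F] [AddCommGroup g] [Module F g] [FiniteDimensional F g]

/-- A vector orthogonal to the kernel of a skew operator lies in its image. -/
theorem orth (B : LinearMap.BilinForm F g) (hs : ∀ x y, B x y = B y x)
    (hnd : ∀ x, (∀ y, B x y = 0) → x = 0) (a : Module.End F g)
    (ha : ∀ x y, B (a x) y = - B x (a y)) (x : g) (hx : ∀ z, a z = 0 → B x z = 0) :
    ∃ y, a y = x := by
  by_contra hc
  have hx' : x ∉ LinearMap.range a := fun h => hc h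
  obtain ⟨f, hf, hf'⟩ := Submodule.exists_le_ker_of_notMem hx'
  have hinj : Function.Injective (B : g →ₗ[F] Module.Dual F g) := by
    rw [← LinearMap.ker_eq_bot]
    refine (Submodule.eq_bot_iff _).2 fun u hu => hnd u fun y => ?_
    rw [LinearMap.mem_ker] at hu
    rw [hu]
    rfl
  have hsurj : Function.Surjective (B : g →ₗ[F] Module.Dual F g) :=
    (LinearMap.injective_iff_surjective_of_finrank_eq_finrank (Subspace.dual_finrank_eq (K := F) (V := g)).symm).1 hinj
  obtain ⟨z, hz⟩ := hsurj f
  have hf0 : ∀ y, f (a y) = 0 := fun y => LinearMap.mem_ker.1 (hf' (LinearMap.mem_range_self a y))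
  have haz : a z = 0 := by
    refine hnd _ fun y => ?_
    rw [ha, hz, hf0, neg_zero]
  have h1 := hx z haz
  rw [hs, hz] at h1
  exact hf h1

end Pool.Agent.MP_f8720a_ag.HK
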