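import Pool.Agent.Lib.MP_f8720a_ag.HK.Proj

/-!
# The part of degree 2 of an operator
-/

namespace Pool.Agent.MP_f8720a_ag.HK

variable {F V : Type} [Field F] [AddCommGroup V] [Module F V] [FiniteDimensional F V]

/-- If `E N - N E` is multiplication by `j` on `G j`, the same holds for the part `E'` of degree
`2` of `E`. -/
theorem part2 (G : ℤ → Submodule F V) (hG : DirectSum.IsInternal G) (N E : Module.End F V)
    (hN : ∀ j, ∀ x ∈ G j, N x ∈ G (j - 2))
    (hEN : ∀ j, ∀ x ∈ G j, E (N x) - N (E x) = (j : F) • x) :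
    ∃ E' : Module.End F V, (∀ j, ∀ x ∈ G j, E' x ∈ G (j + 2)) ∧
      ∀ j, ∀ x ∈ G j, E' (N x) - N (E' x) = (j : F) • x := by
  obtain ⟨p, s, h1, h2, h3, h4, h5⟩ := proj G hG
  have hbot : ∀ k, k ∉ s → ∀ x ∈ G k, x = 0 := by
    intro k hk x hx
    rw [h4 k hk] at hx
    exact (Submodule.mem_bot F).1 hx
  have key : ∀ j, ∀ x ∈ G j, (∑ k ∈ s, p (k + 2) * E * p k) x = p (j + 2) (E x) := by
    intro j x hx
    rw [LinearMap.sum_apply]
    by_cases hj : j ∈ s
    · rw [Finset.sum_eq_single j]
      · rw [Module.End.mul_apply, Module.End.mul_apply, h2 j x hx]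
      · intro k _ hk
        rw [Module.End.mul_apply, Module.End.mul_apply, h3 j k (Ne.symm hk) x hx, map_zero, map_zero]
      · intro h
        exact absurd hj h
    · rw [hbot j hj x hx]
      simp
  have comm : ∀ j, ∀ y, p j (N y) = N (p (j + 2) y) := by
    intro j y
    have e1 : N y = ∑ k ∈ s, N (p k y) := by
      rw [← map_sum, h5]
    rw [e1, map_sum]
    by_cases hj : j + 2 ∈ s
    · rw [Finset.sum_eq_single (j + 2)]
      · apply h2
        have h6 := hN (j + 2) _ (h1 (j + 2) y)
        rwa [add_sub_cancel_right] at h6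
      · intro k _ hk
        exact h3 (k - 2) j (by omega) _ (hN k _ (h1 k y))
      · intro h
        exact absurd hj h
    · rw [hbot (j + 2) hj _ (h1 (j + 2) y), map_zero]
      refine Finset.sum_eq_zero fun k hk => ?_
      have hne : k ≠ j + 2 := by
        rintro rfl
        exact hj hk
      exact h3 (k - 2) j (by omega) _ (hN k _ (h1 k y))
  refine ⟨∑ k ∈ s, p (k + 2) * E * p k, fun j x hx => ?_, fun j x hx => ?_⟩
  · rw [key j x hx]
    exact h1 _ _
  · rw [key j x hx, key (j - 2) (N x) (hN j x hx), sub_add_cancel, ← comm, ← map_sub, hEN j x hx, map_smul, h2 j x hx]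

end Pool.Agent.MP_f8720a_ag.HK
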