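import Pool.Agent.Lib.MP_f8720a_ag.HK.Proj

/-!
# A trace which vanishes

With `p`, `s` from `proj`: `h = ∑ j p_j`, so `tr (h Z)` is the sum over `j` of `j t_j`, `t_j = tr (p_j Z)`. For `e ≥ 0`
the inverse `μ` of `N^e : G e → G (-e)` gives `p_(-e) = N^e μ`, `p_e = μ N^e`, so `t_e = t_(-e)`.
-/

namespace Pool.Agent.MP_f8720a_ag.HK

variable {F V : Type} [Field F] [AddCommGroup V] [Module F V] [FiniteDimensional F V]

/-- If all `N ^ e : G e → G (-e)` are bijective, `h` is multiplication by `j` on `G j`, and `Z`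
commutes with `N`, then `tr (h Z) = 0`. -/
theorem trace_zero (G : ℤ → Submodule F V) (hG : DirectSum.IsInternal G)
    (N h Z : Module.End F V) (hN : ∀ j, ∀ x ∈ G j, N x ∈ G (j - 2))
    (hh : ∀ j, ∀ x ∈ G j, h x = (j : F) • x)
    (hM : ∀ e : ℕ, (∀ x ∈ G e, (N ^ e) x = 0 → x = 0) ∧ ∀ y ∈ G (-e), ∃ x ∈ G e, (N ^ e) x = y)
    (hZ : Z * N = N * Z) : LinearMap.trace F V (h * Z) = 0 := by
  classical
  obtain ⟨p, s, h1, h2, h3, h4, h5⟩ := proj G hG
  have hNe : ∀ (e : ℕ) (j : ℤ), ∀ x ∈ G j, (N ^ e) x ∈ G (j - 2 * e) := by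
    intro e
    induction e with
    | zero =>
      intro j x hx
      simpa using hx
    | succ e ih =>
      intro j x hx
      rw [pow_succ', Module.End.mul_apply]
      have := hN _ _ (ih j x hx)
      have h6 : j - 2 * ((e + 1 : ℕ) : ℤ) = j - 2 * (e : ℤ) - 2 := by
        push_cast
        ring
      rw [h6]
      exact this
  have hcomm : ∀ e : ℕ, Z * N ^ e = N ^ e * Z := fun e => by
    have h6 : Commute Z N := hZ
    exact (h6.pow_right e).eq
  -- the traces agree
  have key : ∀ e : ℕ, LinearMap.trace F V (p (-e) * Z) = LinearMap.trace F V (p e * Z) := by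
    intro e
    obtain ⟨hinj, hsur⟩ := hM e
    have hmaps : ∀ x ∈ G e, (N ^ e) x ∈ G (-(e : ℤ)) := by
      intro x hx
      have := hNe e e x hx
      have h6 : (e : ℤ) - 2 * (e : ℤ) = -(e : ℤ) := by ring
      rwa [h6] at this
    obtain ⟨ν, hν⟩ : ∃ ν : G (e : ℤ) ≃ₗ[F] G (-(e : ℤ)), ∀ x, (ν x : V) = (N ^ e) x := by
      refine ⟨LinearEquiv.ofBijective ((N ^ e).restrict hmaps) ⟨?_, ?_⟩, fun x => rfl⟩
      · rw [injective_iff_map_eq_zero]
        intro x hx
        have h7 : (N ^ e) (x : V) = 0 := by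
          have := congrArg Subtype.val hx
          simpa using this
        exact Subtype.ext (hinj x x.2 h7)
      · intro y
        obtain ⟨x, hx, hxy⟩ := hsur y y.2
        exact ⟨⟨x, hx⟩, Subtype.ext hxy⟩
    obtain ⟨μ, hμ⟩ : ∃ μ : Module.End F V, ∀ x, μ x = ((ν.symm ⟨p (-e) x, h1 (-e) x⟩ : G (e : ℤ)) : V) :=
      ⟨(G (e : ℤ)).subtype ∘ₗ ν.symm.toLinearMap ∘ₗ (LinearMap.codRestrict (G (-(e : ℤ))) (p (-e)) (h1 (-e))),
        fun x => rfl⟩
    have k1 : p (-e) = N ^ e * μ := by
      ext x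
      rw [Module.End.mul_apply, hμ, ← hν, LinearEquiv.apply_symm_apply]
    have k2 : p e = μ * N ^ e := by
      ext x
      rw [Module.End.mul_apply, hμ]
      have k3 : p (-e) ((N ^ e) x) = (N ^ e) (p e x) := by
        conv_lhs => rw [← h5 x]
        rw [map_sum, map_sum]
        have k4 : ∀ k ∈ s, p (-e) ((N ^ e) (p k x)) = if k = e then (N ^ e) (p e x) else 0 := by
          intro k _
          split_ifs with hk
          · subst hk
            exact h2 _ _ (hmaps _ (h1 _ _))
          · refine h3 (k - 2 * e) (-e) (fun h => hk (by linarith)) _ (hNe e k _ (h1 _ _))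
        rw [Finset.sum_congr rfl k4, Finset.sum_ite_eq']
        split_ifs with hs
        · rfl
        · have k5 := h1 e x
          rw [h4 e hs, Submodule.mem_bot] at k5
          rw [k5, map_zero]
      have k6 : (⟨p (-e) ((N ^ e) x), h1 (-e) _⟩ : G (-(e : ℤ))) = ν ⟨p e x, h1 e x⟩ := by
        apply Subtype.ext
        rw [hν]
        exact k3
      rw [k6, LinearEquiv.symm_apply_apply]
    rw [k1, k2, mul_assoc, LinearMap.trace_mul_comm, mul_assoc, hcomm, mul_assoc]
  have key2 : ∀ j : ℤ, LinearMap.trace F V (p (-j) * Z) = LinearMap.trace F V (p j * Z) := by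
    intro j
    rcases le_total 0 j with hj | hj
    · obtain ⟨e, rfl⟩ := Int.eq_ofNat_of_zero_le hj
      exact key e
    · obtain ⟨e, he⟩ := Int.eq_ofNat_of_zero_le (neg_nonneg.2 hj)
      obtain rfl : j = -(e : ℤ) := by linarith
      rw [neg_neg]
      exact (key e).symm
  have h0 : ∀ j : ℤ, j ∉ s → p j = 0 := by
    intro j hj
    ext x
    have := h1 j x
    rw [h4 j hj, Submodule.mem_bot] at this
    rw [this, LinearMap.zero_apply]
  have hsum : h = ∑ j ∈ s, (j : F) • p j := by
    ext x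
    conv_lhs => rw [← h5 x]
    rw [map_sum, LinearMap.sum_apply]
    exact Finset.sum_congr rfl fun j _ => hh j _ (h1 j x)
  have hsum2 : LinearMap.trace F V (h * Z) =
      ∑ j ∈ s ∪ s.image (fun j => -j), (j : F) * LinearMap.trace F V (p j * Z) := by
    rw [hsum, Finset.sum_mul, map_sum]
    have h6 : ∀ j ∈ s, LinearMap.trace F V ((j : F) • p j * Z) = (j : F) * LinearMap.trace F V (p j * Z) := by
      intro j _
      rw [smul_mul_assoc, map_smul, smul_eq_mul]
    rw [Finset.sum_congr rfl h6]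
    refine Finset.sum_subset Finset.subset_union_left fun j _ hj => ?_
    rw [h0 j hj, zero_mul, map_zero, mul_zero]
  rw [hsum2]
  refine Finset.sum_involution (fun j _ => -j) ?_ ?_ ?_ ?_
  · intro j _
    rw [key2]
    push_cast
    ring
  · intro j _ hj h6
    apply hj
    obtain rfl : j = 0 := by omega
    rw [Int.cast_zero, zero_mul]
  · intro j hj
    rw [Finset.mem_union, Finset.mem_image] at hj ⊢
    rcases hj with hj | ⟨k, hk, rfl⟩
    · exact Or.inr ⟨j, hj, rfl⟩
    · exact Or.inl (by rwa [neg_neg])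
  · intro j _
    exact neg_neg j

end Pool.Agent.MP_f8720a_ag.HK
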