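import Pool.Agent.Lib.MP_f8720a_ag.HK.Sl2
import Pool.Agent.Lib.MP_f8720a_ag.HK.Part2
import Pool.Agent.Lib.MP_f8720a_ag.HK.TrZero
import Pool.Agent.Lib.MP_f8720a_ag.HK.Orth

/-!
# The criterion
-/

namespace Pool.Agent.MP_f8720a_ag.HK

variable {F J : Type} [Field F] [CharZero F] [Fintype J] (H : J → Type)
  [∀ j, AddCommGroup (H j)] [∀ j, Module F (H j)] [∀ j, FiniteDimensional F (H j)]

/-- If the `N ^ e : G e → G (-e)` are bijective on the `H i`, `i ∈ I`, and the trace form of these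
is nondegenerate on a space `g ∋ h` of endomorphisms stable under `Y ↦ Y N - N Y`, they are
bijective on all `H j`. -/
theorem crit (G : ∀ j, ℤ → Submodule F (H j)) (hG : ∀ j, DirectSum.IsInternal (G j))
    (N h : ∀ j, Module.End F (H j)) (hN : ∀ j w, ∀ x ∈ G j w, N j x ∈ G j (w - 2))
    (hh : ∀ j w, ∀ x ∈ G j w, h j x = (w : F) • x)
    (g : Submodule F (∀ j, Module.End F (H j))) (hg : h ∈ g)
    (hNg : ∀ Y ∈ g, (fun j => Y j * N j - N j * Y j) ∈ g) (I : Finset J)
    (hI : ∀ i ∈ I, ∀ e : ℕ, (∀ x ∈ G i e, (N i ^ e) x = 0 → x = 0) ∧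
      ∀ y ∈ G i (-e), ∃ x ∈ G i e, (N i ^ e) x = y)
    (hT : ∀ Y ∈ g, (∀ Z ∈ g, ∑ i ∈ I, LinearMap.trace F (H i) (Y i * Z i) = 0) → Y = 0) :
    ∀ j, ∀ e : ℕ, (∀ x ∈ G j e, (N j ^ e) x = 0 → x = 0) ∧
      ∀ y ∈ G j (-e), ∃ x ∈ G j e, (N j ^ e) x = y := by
  -- the trace form
  let B : LinearMap.BilinForm F g := LinearMap.mk₂ F
    (fun Y Z => ∑ i ∈ I, LinearMap.trace F (H i) ((Y : ∀ j, Module.End F (H j)) i *
      (Z : ∀ j, Module.End F (H j)) i))
    (by
      intro Y Y' Z
      rw [← Finset.sum_add_distrib]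
      refine Finset.sum_congr rfl fun i _ => ?_
      rw [← map_add, ← add_mul]
      rfl)
    (by
      intro c Y Z
      rw [Finset.smul_sum]
      refine Finset.sum_congr rfl fun i _ => ?_
      rw [← map_smul, ← smul_mul_assoc]
      rfl)
    (by
      intro Y Z Z'
      rw [← Finset.sum_add_distrib]
      refine Finset.sum_congr rfl fun i _ => ?_
      rw [← map_add, ← mul_add]
      rfl)
    (by
      intro c Y Z
      rw [Finset.smul_sum]
      refine Finset.sum_congr rfl fun i _ => ?_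
      rw [← map_smul, ← mul_smul_comm]
      rfl)
  have hB : ∀ Y Z : g, B Y Z = ∑ i ∈ I, LinearMap.trace F (H i)
      ((Y : ∀ j, Module.End F (H j)) i * (Z : ∀ j, Module.End F (H j)) i) := fun Y Z => rfl
  let a : Module.End F g :=
    { toFun := fun Y => ⟨fun j => (Y : ∀ j, Module.End F (H j)) j * N j -
        N j * (Y : ∀ j, Module.End F (H j)) j, hNg Y Y.2⟩
      map_add' := by
        intro Y Z
        apply Subtype.ext
        funext j
        change ((Y : ∀ j, Module.End F (H j)) j + (Z : ∀ j, Module.End F (H j)) j) * N j -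
          N j * ((Y : ∀ j, Module.End F (H j)) j + (Z : ∀ j, Module.End F (H j)) j) =
          ((Y : ∀ j, Module.End F (H j)) j * N j - N j * (Y : ∀ j, Module.End F (H j)) j) +
          ((Z : ∀ j, Module.End F (H j)) j * N j - N j * (Z : ∀ j, Module.End F (H j)) j)
        rw [add_mul, mul_add]
        abel
      map_smul' := by
        intro c Y
        apply Subtype.ext
        funext j
        change (c • (Y : ∀ j, Module.End F (H j)) j) * N j -
          N j * (c • (Y : ∀ j, Module.End F (H j)) j) =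
          c • ((Y : ∀ j, Module.End F (H j)) j * N j - N j * (Y : ∀ j, Module.End F (H j)) j)
        rw [smul_mul_assoc, mul_smul_comm, smul_sub] }
  have haj : ∀ (Y : g) (j : J), ((a Y : g) : ∀ j, Module.End F (H j)) j =
      (Y : ∀ j, Module.End F (H j)) j * N j - N j * (Y : ∀ j, Module.End F (H j)) j :=
    fun Y j => rfl
  have hs : ∀ Y Z, B Y Z = B Z Y := by
    intro Y Z
    rw [hB, hB]
    exact Finset.sum_congr rfl fun i _ => LinearMap.trace_mul_comm F _ _
  have hnd : ∀ Y, (∀ Z, B Y Z = 0) → Y = 0 := by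
    intro Y hY
    apply Subtype.ext
    exact hT Y Y.2 fun Z hZ => hY ⟨Z, hZ⟩
  have ha : ∀ Y Z, B (a Y) Z = - B Y (a Z) := by
    intro Y Z
    rw [hB, hB, ← Finset.sum_neg_distrib]
    refine Finset.sum_congr rfl fun i _ => ?_
    rw [haj, haj, sub_mul, mul_sub, map_sub, map_sub, neg_sub, mul_assoc, mul_assoc,
      LinearMap.trace_mul_comm F (N i), mul_assoc]
  have hmem : ∀ Z, a Z = 0 → B ⟨h, hg⟩ Z = 0 := by
    intro Z hZ
    rw [hB]
    refine Finset.sum_eq_zero fun i hi => ?_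
    apply trace_zero (G i) (hG i) (N i) (h i) _ (hN i) (hh i) (hI i hi)
    have h1 := congrArg (fun Y : g => (Y : ∀ j, Module.End F (H j)) i) hZ
    change ((a Z : g) : ∀ j, Module.End F (H j)) i = 0 at h1
    rw [haj, sub_eq_zero] at h1
    exact h1
  have hfin : FiniteDimensional F g := inferInstance
  obtain ⟨E, hE⟩ := orth B hs hnd a ha ⟨h, hg⟩ hmem
  intro j e
  have hEj : ∀ w, ∀ x ∈ G j w, (E : ∀ j, Module.End F (H j)) j (N j x) -
      N j ((E : ∀ j, Module.End F (H j)) j x) = (w : F) • x := by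
    intro w x hx
    have h1 := congrArg (fun Y : g => (Y : ∀ j, Module.End F (H j)) j) hE
    change ((a E : g) : ∀ j, Module.End F (H j)) j = h j at h1
    rw [haj] at h1
    have h2 := congrArg (fun L : Module.End F (H j) => L x) h1
    simp only [LinearMap.sub_apply, Module.End.mul_apply] at h2
    rw [h2, hh j w x hx]
  obtain ⟨E', hE', hE'N⟩ := part2 (G j) (hG j) (N j) _ (hN j) hEj
  exact sl2 (G j) (hG j) (N j) E' (hN j) hE' hE'N e

end Pool.Agent.MP_f8720a_ag.HK
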