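import Pool.Agent.Lib.MP_f8720a_ag.HK.Filt

/-!
# Log cohomology with its weight spaces

`LogCoh`: log cohomology groups `H j` with monodromy operators and weight spaces; `PM j`: the weight
filtration of `H j` is the monodromy filtration; `IsSection`: restriction to a linear section;
`Stable`, `TraceNondeg`: the conditions on a space `g` of endomorphisms of degree zero; `ActsAsSo`: a
case in which `TraceNondeg` holds. `Surj`, `IsProduct`, `IsDuality`, `Generated` are only used in
`HK.Main`, not in the final statement.
-/

namespace Pool.Agent.MP_f8720a_ag.HK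

/-- Finite-dimensional spaces `H j`, to be thought of as log cohomology groups `H^q`, `q = deg j`,
of projective SNCL schemes over a log point (or subquotients of them): `N j` is the monodromy
operator, `W j w` is the space of weight `w` (if the scheme comes from a finite field: the sum of the
generalised eigenspaces for the Frobenius eigenvalues of weight `w`; in general `H j` can be
replaced by `gr^P H^q`). The weights are between `0` and `2 q`, and `N` lowers the weight by `2`. `h` is
the operator weight minus degree. -/
structure LogCoh (F : Type) [Field F] {J : Type} (H : J → Type) [∀ j, AddCommGroup (H j)]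
    [∀ j, Module F (H j)] where
  deg : J → ℕ
  N : ∀ j, Module.End F (H j)
  W : ∀ j, ℤ → Submodule F (H j)
  internal : ∀ j, DirectSum.IsInternal (W j)
  bound : ∀ j w, w < 0 ∨ 2 * (deg j : ℤ) < w → W j w = ⊥
  lower : ∀ j w, ∀ x ∈ W j w, N j x ∈ W j (w - 2)
  h : ∀ j, Module.End F (H j)
  h_apply : ∀ j w, ∀ x ∈ W j w, h j x = ((w - deg j : ℤ) : F) • x

namespace LogCoh

variable {F J : Type} [Field F] {H : J → Type} [∀ j, AddCommGroup (H j)]
  [∀ j, Module F (H j)] (X : LogCoh F H)

/-- The weight filtration: `P k` is the sum of the weight spaces of weight `≤ k`. -/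
def P (j : J) : ℤ → Submodule F (H j) := filt (X.W j)

/-- The weight filtration of `H j` is the monodromy filtration of `N`, centred at the degree. -/
def PM (j : J) : Prop := IsMonodromy (X.N j) (X.deg j) (X.P j)

/-- `N ^ e` maps the weight space of weight `q + e` onto the one of weight `q - e`, `q = deg j`. -/
def Surj (j : J) : Prop :=
  ∀ e : ℕ, ∀ y ∈ X.W j (X.deg j - e), ∃ x ∈ X.W j (X.deg j + e), (X.N j ^ e) x = y

/-- `i` behaves like the restriction of `H^q` to a linear section of dimension at least `q`, the log
cohomology of the section being `Z`: it is injective and compatible with the weights and the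
monodromy operators. -/
structure IsSection {J' : Type} {H' : J' → Type} [∀ k, AddCommGroup (H' k)]
    [∀ k, Module F (H' k)] (Z : LogCoh F H') {j : J} {k : J'} (i : H j →ₗ[F] H' k) : Prop where
  inj : Function.Injective i
  deg_eq : Z.deg k = X.deg j
  weight : ∀ w, ∀ x ∈ X.W j w, i x ∈ Z.W k w
  comm : ∀ x, i (X.N j x) = Z.N k (i x)

/-- The weights `q + e` and `q - e` of `H j`, `q = deg j`, have the same multiplicity for all `e`, and
`H j` is contained, compatibly with the weights and the monodromy operators, in a group of the same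
degree (the one of a linear section) for which `P = M` holds. -/
def SymSection (j : J) : Prop :=
  (∀ e : ℕ, Module.finrank F (X.W j (X.deg j + e)) = Module.finrank F (X.W j (X.deg j - e))) ∧
    ∃ (H' : Unit → Type) (_ : ∀ k, AddCommGroup (H' k)) (_ : ∀ k, Module F (H' k))
      (_ : ∀ k, FiniteDimensional F (H' k)) (Z : LogCoh F H') (i : H j →ₗ[F] H' ()),
      X.IsSection Z i ∧ Z.PM ()

/-- `m` behaves like a cup product: degrees and weights are added, `N` is a derivation. -/
structure IsProduct {i k j : J} (m : H i →ₗ[F] H k →ₗ[F] H j) : Prop where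
  deg_add : X.deg j = X.deg i + X.deg k
  weight : ∀ v w, ∀ x ∈ X.W i v, ∀ y ∈ X.W k w, m x y ∈ X.W j (v + w)
  leibniz : ∀ x y, X.N j (m x y) = m (X.N i x) y + m x (X.N k y)

/-- `b` behaves like Poincare duality: it is nondegenerate, it pairs only weights whose sum is the
sum of the degrees, and `N` is skew. -/
structure IsDuality {j j' : J} (b : H j →ₗ[F] H j' →ₗ[F] F) : Prop where
  left : ∀ x, (∀ y, b x y = 0) → x = 0
  right : ∀ y, (∀ x, b x y = 0) → y = 0
  weight : ∀ v w : ℤ, v + w ≠ X.deg j + X.deg j' → ∀ x ∈ X.W j v, ∀ y ∈ X.W j' w, b x y = 0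
  skew : ∀ x y, b (X.N j x) y = - b x (X.N j' y)

/-- `H j` is spanned by products of elements of groups for which `Surj` holds. -/
def Generated (j : J) : Prop :=
  Submodule.span F {z : H j | ∃ (i k : J) (m : H i →ₗ[F] H k →ₗ[F] H j) (x : H i) (y : H k),
    X.IsProduct m ∧ X.Surj i ∧ X.Surj k ∧ z = m x y} = ⊤

/-- `g` contains `h` and is stable under `Y ↦ Y N - N Y`. -/
structure Stable (g : Submodule F (∀ j, Module.End F (H j))) : Prop where
  h_mem : X.h ∈ g
  comm : ∀ Y ∈ g, (fun j => Y j * X.N j - X.N j * Y j) ∈ g

end LogCoh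

section

variable {F J : Type} [Field F] {H : J → Type} [∀ j, AddCommGroup (H j)]
  [∀ j, Module F (H j)]

/-- The trace form `(Y, Z) ↦ ∑ tr (Y Z | H i)`, `i ∈ I`, is nondegenerate on `g`. -/
def TraceNondeg (g : Submodule F (∀ j, Module.End F (H j))) (I : Finset J) : Prop :=
  ∀ Y ∈ g, (∀ Z ∈ g, ∑ i ∈ I, LinearMap.trace F (H i) (Y i * Z i) = 0) → Y = 0

/-- `b` is nondegenerate. -/
def Nondeg {V : Type} [AddCommGroup V] [Module F V] (b : LinearMap.BilinForm F V) : Prop :=
  (∀ x, (∀ y, b x y = 0) → x = 0) ∧ ∀ y, (∀ x, b x y = 0) → y = 0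

/-- `Y` is skew for `b`. -/
def Skew {V : Type} [AddCommGroup V] [Module F V] (b : LinearMap.BilinForm F V)
    (Y : Module.End F V) : Prop :=
  ∀ x y, b (Y x) y + b x (Y y) = 0

/-- `b` is a symmetric form on `H j`, `g` restricts to exactly the `b`-skew endomorphisms of
`H j`, and an element of `g` is determined by its restriction to `H j`. -/
structure ActsAsSo (g : Submodule F (∀ j, Module.End F (H j))) (j : J)
    (b : LinearMap.BilinForm F (H j)) : Prop where
  symm : ∀ x y, b x y = b y x
  skew : ∀ Y ∈ g, Skew b (Y j)
  lift : ∀ Z : Module.End F (H j), Skew b Z → ∃ Y ∈ g, Y j = Z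
  faithful : ∀ Y ∈ g, Y j = 0 → Y = 0

end

end Pool.Agent.MP_f8720a_ag.HK
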