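import Mathlib

/-!
# Dimensions of the pieces paired by an invariant form
-/

namespace Pool.Agent.MP_f8720a_ag.HK

variable {F V : Type} [Field F] [CharZero F] [AddCommGroup V] [Module F V]
  [FiniteDimensional F V]

/-- A nondegenerate form for which `h` (multiplication by `j` on `G j`) is skew pairs `G j` with
`G (-j)`, so these have the same dimension. -/
theorem dim_eq (G : ℤ → Submodule F V) (hG : DirectSum.IsInternal G) (h : Module.End F V)
    (hh : ∀ j, ∀ x ∈ G j, h x = (j : F) • x) (B : LinearMap.BilinForm F V)
    (hnd : ∀ x, (∀ y, B x y = 0) → x = 0) (hnd' : ∀ y, (∀ x, B x y = 0) → y = 0)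
    (hB : ∀ x y, B (h x) y + B x (h y) = 0) (j : ℤ) :
    Module.finrank F (G j) = Module.finrank F (G (-j)) := by
  have hort : ∀ i k : ℤ, k ≠ -i → ∀ x ∈ G i, ∀ y ∈ G k, B x y = 0 := by
    intro i k hk x hx y hy
    have h1 := hB x y
    rw [hh i x hx, hh k y hy, map_smul, LinearMap.smul_apply, map_smul, smul_eq_mul, smul_eq_mul,
      ← add_mul] at h1
    rcases mul_eq_zero.1 h1 with h2 | h2
    · exfalso
      apply hk
      have h3 : ((i + k : ℤ) : F) = 0 := by
        rw [Int.cast_add]
        exact h2
      have h4 : i + k = 0 := Int.cast_eq_zero.1 h3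
      omega
    · exact h2
  have htop : iSup G = ⊤ := hG.submodule_iSup_eq_top
  have key : ∀ i : ℤ, Module.finrank F (G i) ≤ Module.finrank F (G (-i)) := by
    intro i
    let f : G i →ₗ[F] Module.Dual F (G (-i)) :=
      (Submodule.dualRestrict (G (-i))) ∘ₗ B ∘ₗ (G i).subtype
    have hf : Function.Injective f := by
      rw [← LinearMap.ker_eq_bot, LinearMap.ker_eq_bot']
      intro x hx
      apply Subtype.ext
      refine hnd x.1 fun y => ?_
      have hy : y ∈ iSup G := by
        rw [htop]
        exact Submodule.mem_top
      induction hy using Submodule.iSup_induction' with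
      | mem k y hy =>
        by_cases hk : k = -i
        · subst hk
          have h1 := LinearMap.congr_fun hx ⟨y, hy⟩
          exact h1
        · exact hort i k hk x.1 x.2 y hy
      | zero => exact map_zero _
      | add y z _ _ h1 h2 => rw [map_add, h1, h2, add_zero]
    calc Module.finrank F (G i) ≤ Module.finrank F (Module.Dual F (G (-i))) :=
          LinearMap.finrank_le_finrank_of_injective hf
      _ = Module.finrank F (G (-i)) := Subspace.dual_finrank_eq
  refine le_antisymm (key j) ?_
  have h1 := key (-j)
  rwa [neg_neg] at h1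

end Pool.Agent.MP_f8720a_ag.HK
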