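import Mathlib

/-!
# Dimensions of dual pieces
-/

namespace Pool.Agent.MP_f8720a_ag.HK

variable {F V V' : Type} [Field F] [AddCommGroup V] [Module F V] [FiniteDimensional F V]
  [AddCommGroup V'] [Module F V'] [FiniteDimensional F V']

theorem dim_dual_le (G : ℤ → Submodule F V) (G' : ℤ → Submodule F V')
    (hG' : DirectSum.IsInternal G') (b : V →ₗ[F] V' →ₗ[F] F)
    (hb : ∀ x, (∀ y, b x y = 0) → x = 0)
    (hbG : ∀ i j, i + j ≠ 0 → ∀ x ∈ G i, ∀ y ∈ G' j, b x y = 0) (i : ℤ) :
    Module.finrank F (G i) ≤ Module.finrank F (G' (-i)) := by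
  have htop : iSup G' = ⊤ := hG'.submodule_iSup_eq_top
  let f : G i →ₗ[F] Module.Dual F (G' (-i)) :=
    (Submodule.dualRestrict (G' (-i))) ∘ₗ b ∘ₗ (G i).subtype
  have hf : Function.Injective f := by
    rw [← LinearMap.ker_eq_bot, LinearMap.ker_eq_bot']
    intro x hx
    apply Subtype.ext
    refine hb x.1 fun y => ?_
    have hy : y ∈ iSup G' := by
      rw [htop]
      exact Submodule.mem_top
    induction hy using Submodule.iSup_induction' with
    | mem k y hy =>
      by_cases hk : k = -i
      · subst hk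
        have h1 := LinearMap.congr_fun hx ⟨y, hy⟩
        exact h1
      · exact hbG i k (by omega) x.1 x.2 y hy
    | zero => exact map_zero _
    | add y z _ _ h1 h2 => rw [map_add, h1, h2, add_zero]
  calc Module.finrank F (G i) ≤ Module.finrank F (Module.Dual F (G' (-i))) :=
        LinearMap.finrank_le_finrank_of_injective hf
    _ = Module.finrank F (G' (-i)) := Subspace.dual_finrank_eq

/-- Dual pieces have the same dimension. -/
theorem dim_dual (G : ℤ → Submodule F V) (G' : ℤ → Submodule F V')
    (hG : DirectSum.IsInternal G) (hG' : DirectSum.IsInternal G') (b : V →ₗ[F] V' →ₗ[F] F)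
    (hb : ∀ x, (∀ y, b x y = 0) → x = 0) (hb' : ∀ y, (∀ x, b x y = 0) → y = 0)
    (hbG : ∀ i j, i + j ≠ 0 → ∀ x ∈ G i, ∀ y ∈ G' j, b x y = 0) (i : ℤ) :
    Module.finrank F (G i) = Module.finrank F (G' (-i)) := by
  refine le_antisymm (dim_dual_le G G' hG' b hb hbG i) ?_
  have h := dim_dual_le G' G hG b.flip hb'
    (fun i j hij y hy x hx => hbG j i (by omega) x hx y hy) (-i)
  rwa [neg_neg] at h

/-- An injective `N ^ e` between pieces of the same dimension is surjective. -/
theorem surj_of_dim {F V : Type} [Field F] [AddCommGroup V] [Module F V]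
    [FiniteDimensional F V] (G : ℤ → Submodule F V) (N : Module.End F V)
    (hN : ∀ j, ∀ x ∈ G j, N x ∈ G (j - 2)) (e : ℕ)
    (hd : Module.finrank F (G e) = Module.finrank F (G (-e)))
    (hinj : ∀ x ∈ G e, (N ^ e) x = 0 → x = 0) : ∀ y ∈ G (-e), ∃ x ∈ G e, (N ^ e) x = y := by
  have hpow : ∀ (k : ℕ) (j : ℤ), ∀ x ∈ G j, (N ^ k) x ∈ G (j - 2 * k) := by
    intro k
    induction k with
    | zero =>
      intro j x hx
      simpa using hx
    | succ k ih =>
      intro j x hx
      rw [pow_succ', Module.End.mul_apply]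
      have := hN _ _ (ih j x hx)
      convert this using 2
      push_cast
      ring
  have hmem : ∀ x ∈ G e, (N ^ e) x ∈ G (-e) := by
    intro x hx
    have := hpow e e x hx
    convert this using 2
    ring
  let f : G e →ₗ[F] G (-e) := (N ^ e).restrict hmem
  have hf : Function.Injective f := by
    rw [← LinearMap.ker_eq_bot, LinearMap.ker_eq_bot']
    intro x hx
    apply Subtype.ext
    exact hinj x.1 x.2 (congrArg Subtype.val hx)
  have hs : Function.Surjective f :=
    (LinearMap.injective_iff_surjective_of_finrank_eq_finrank hd).1 hf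
  intro y hy
  obtain ⟨x, hx⟩ := hs ⟨y, hy⟩
  exact ⟨x.1, x.2, congrArg Subtype.val hx⟩

end Pool.Agent.MP_f8720a_ag.HK
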