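import Mathlib

/-!
# Duality
-/

namespace Pool.Agent.MP_f8720a_ag.HK

theorem inj_of_dual {F V V' : Type} [Field F] [AddCommGroup V] [Module F V] [AddCommGroup V']
    [Module F V'] (G : ℤ → Submodule F V) (G' : ℤ → Submodule F V')
    (hG' : DirectSum.IsInternal G') (N : Module.End F V) (N' : Module.End F V')
    (b : V →ₗ[F] V' →ₗ[F] F) (hb : ∀ x, (∀ y, b x y = 0) → x = 0)
    (hbG : ∀ i j, i + j ≠ 0 → ∀ x ∈ G i, ∀ y ∈ G' j, b x y = 0)
    (hbN : ∀ x y, b (N x) y = - b x (N' y))
    (hS : ∀ e : ℕ, ∀ y ∈ G' (-e), ∃ x ∈ G' e, (N' ^ e) x = y) (e : ℕ) :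
    ∀ x ∈ G e, (N ^ e) x = 0 → x = 0 := by
  intro x hx hNx
  have hpow : ∀ (n : ℕ) (x : V) (z : V'), b ((N ^ n) x) z = (-1) ^ n * b x ((N' ^ n) z) := by
    intro n
    induction n with
    | zero =>
      intro x z
      simp
    | succ n ih =>
      intro x z
      rw [pow_succ' N, Module.End.mul_apply, hbN, ih, pow_succ N', Module.End.mul_apply, pow_succ]
      ring
  apply hb
  intro y
  have hy : y ∈ iSup G' := by
    rw [hG'.submodule_iSup_eq_top]
    exact Submodule.mem_top
  refine Submodule.iSup_induction G' (motive := fun y => b x y = 0) hy ?_ ?_ ?_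
  · intro j y hy
    by_cases hj : (e : ℤ) + j ≠ 0
    · exact hbG e j hj x hx y hy
    · have hj' : j = -(e : ℤ) := by
        have h1 := not_not.1 hj
        omega
      rw [hj'] at hy
      obtain ⟨z, _, hz⟩ := hS e y hy
      have h2 := hpow e x z
      rw [hNx, map_zero, LinearMap.zero_apply, hz] at h2
      have h3 : ((-1 : F)) ^ e ≠ 0 := pow_ne_zero _ (neg_ne_zero.2 one_ne_zero)
      exact (mul_eq_zero.1 h2.symm).resolve_left h3
  · exact map_zero _
  · intro y z hy hz
    rw [map_add, hy, hz, add_zero]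

end Pool.Agent.MP_f8720a_ag.HK
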