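import Pool.Agent.Lib.MP_f8720a_ag.HK.Main

/-!
# An example for the hypotheses of the criterion

The cohomology groups, of degrees `2` and `4`, are `T × T × T` with `T = ℚ` and
`N (a, b, c) = (0, a, b)`. The weight spaces are the eigenspaces of `h (a, b, c) = (2 a, 0, - 2 c)`,
`b` is `x₁ y₃ - x₂ y₂ + x₃ y₁`, and `g` is the space of the pairs `(Y, Y)` with `Y` skew.
-/

namespace Pool.Agent.MP_f8720a_ag.HK

namespace ExH

section

variable {T : Type} [AddCommGroup T] [Module ℚ T]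

/-- The monodromy operator. -/
def N0 (T : Type) [AddCommGroup T] [Module ℚ T] : Module.End ℚ (T × T × T) where
  toFun x := (0, x.1, x.2.1)
  map_add' x y := by simp
  map_smul' c x := by simp

/-- The operator weight minus degree. -/
def h0 (T : Type) [AddCommGroup T] [Module ℚ T] : Module.End ℚ (T × T × T) where
  toFun x := ((2 : ℚ) • x.1, 0, (-2 : ℚ) • x.2.2)
  map_add' x y := by simp
  map_smul' c x := by
    simp only [Prod.smul_fst, Prod.smul_snd, RingHom.id_apply, Prod.smul_mk, smul_zero, Prod.mk.injEq,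
      true_and]
    exact ⟨smul_comm _ _ _, smul_comm _ _ _⟩

theorem N0_apply (x : T × T × T) : N0 T x = (0, x.1, x.2.1) := rfl

theorem h0_apply (x : T × T × T) : h0 T x = ((2 : ℚ) • x.1, 0, (-2 : ℚ) • x.2.2) := rfl

/-- The weight spaces, for the degree `d`. -/
def W0 (T : Type) [AddCommGroup T] [Module ℚ T] (d : ℤ) (w : ℤ) : Submodule ℚ (T × T × T) :=
  Module.End.eigenspace (h0 T) ((w - d : ℤ) : ℚ)

theorem mem_W0 {d w : ℤ} {x : T × T × T} :
    x ∈ W0 T d w ↔ (w - d ≠ 2 → x.1 = 0) ∧ (w - d ≠ 0 → x.2.1 = 0) ∧ (w - d ≠ -2 → x.2.2 = 0) := by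
  rw [W0, Module.End.mem_eigenspace_iff, h0_apply, Prod.ext_iff, Prod.ext_iff]
  simp only [Prod.smul_fst, Prod.smul_snd]
  refine and_congr ?_ (and_congr ?_ ?_)
  · rw [← sub_eq_zero, ← sub_smul, smul_eq_zero, sub_eq_zero]
    constructor
    · rintro (h | h) hne
      · exact absurd (by exact_mod_cast h.symm) hne
      · exact h
    · intro h
      by_cases hw : w - d = 2
      · left
        rw [hw]
        norm_num
      · exact Or.inr (h hw)
  · rw [eq_comm, smul_eq_zero]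
    constructor
    · rintro (h | h) hne
      · exact absurd (by exact_mod_cast h) hne
      · exact h
    · intro h
      by_cases hw : w - d = 0
      · left
        rw [hw]
        norm_num
      · exact Or.inr (h hw)
  · rw [← sub_eq_zero, ← sub_smul, smul_eq_zero, sub_eq_zero]
    constructor
    · rintro (h | h) hne
      · exact absurd (by exact_mod_cast h.symm) hne
      · exact h
    · intro h
      by_cases hw : w - d = -2
      · left
        rw [hw]
        norm_num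
      · exact Or.inr (h hw)

theorem W0_internal (d : ℤ) : DirectSum.IsInternal (W0 T d) := by
  rw [DirectSum.isInternal_submodule_iff_iSupIndep_and_iSup_eq_top]
  constructor
  · have h := (h0 T).eigenspaces_iSupIndep
    refine h.comp (f := fun w : ℤ => ((w - d : ℤ) : ℚ)) ?_
    intro a b hab
    have h1 : ((a - d : ℤ) : ℚ) = ((b - d : ℤ) : ℚ) := hab
    have h2 : a - d = b - d := Int.cast_injective h1
    omega
  · rw [eq_top_iff]
    rintro ⟨a, b, c⟩ -
    have h1 : (a, (0 : T), (0 : T)) ∈ ⨆ w, W0 T d w :=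
      Submodule.mem_iSup_of_mem (d + 2) (mem_W0.2 ⟨fun h => absurd (by ring) h, fun _ => rfl, fun _ => rfl⟩)
    have h2 : ((0 : T), b, (0 : T)) ∈ ⨆ w, W0 T d w :=
      Submodule.mem_iSup_of_mem d (mem_W0.2 ⟨fun _ => rfl, fun h => absurd (by ring) h, fun _ => rfl⟩)
    have h3 : ((0 : T), (0 : T), c) ∈ ⨆ w, W0 T d w :=
      Submodule.mem_iSup_of_mem (d - 2) (mem_W0.2 ⟨fun _ => rfl, fun _ => rfl, fun h => absurd (by ring) h⟩)
    have h4 : ((a, b, c) : T × T × T) = (a, 0, 0) + (0, b, 0) + (0, 0, c) := by simp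
    rw [h4]
    exact add_mem (add_mem h1 h2) h3

theorem W0_bot {d : ℤ} (hd : 2 ≤ d) (w : ℤ) (hw : w < 0 ∨ 2 * d < w) : W0 T d w = ⊥ := by
  rw [eq_bot_iff]
  intro x hx
  obtain ⟨h1, h2, h3⟩ := mem_W0.1 hx
  rw [Submodule.mem_bot]
  exact Prod.ext (h1 (by omega)) (Prod.ext (h2 (by omega)) (h3 (by omega)))

theorem W0_lower (d w : ℤ) (x : T × T × T) (hx : x ∈ W0 T d w) : N0 T x ∈ W0 T d (w - 2) := by
  obtain ⟨h1, h2, h3⟩ := mem_W0.1 hx
  refine mem_W0.2 ⟨fun _ => rfl, fun h => h1 (by omega), fun h => h2 (by omega)⟩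
end

section

variable {T : Type} [AddCommGroup T] [Module ℚ T]

/-- The log cohomology groups of the example, in the degrees `2` and `4`. -/
def X (T : Type) [AddCommGroup T] [Module ℚ T] : LogCoh ℚ (fun _ : Fin 2 => T × T × T) where
  deg j := 2 * (j.val + 1)
  N _ := N0 T
  W j := W0 T ((2 * (j.val + 1) : ℕ) : ℤ)
  internal j := W0_internal _
  bound j w hw := W0_bot (by omega) w hw
  lower j w x hx := W0_lower _ w x hx
  h _ := h0 T
  h_apply j w x hx := Module.End.mem_eigenspace_iff.1 hx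
/-- The form `x₁ y₃ - x₂ y₂ + x₃ y₁`. -/
def bf (β : T →ₗ[ℚ] T →ₗ[ℚ] ℚ) : LinearMap.BilinForm ℚ (T × T × T) :=
  LinearMap.mk₂ ℚ (fun x y => β x.1 y.2.2 - β x.2.1 y.2.1 + β x.2.2 y.1)
    (fun x x' y => by
      simp only [Prod.fst_add, Prod.snd_add, map_add, LinearMap.add_apply]
      ring)
    (fun c x y => by
      simp only [Prod.smul_fst, Prod.smul_snd, map_smul, LinearMap.smul_apply, smul_eq_mul]
      ring)
    (fun x y y' => by
      simp only [Prod.fst_add, Prod.snd_add, map_add]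
      ring)
    (fun c x y => by
      simp only [Prod.smul_fst, Prod.smul_snd, map_smul, smul_eq_mul]
      ring)

theorem bf_apply (β : T →ₗ[ℚ] T →ₗ[ℚ] ℚ) (x y : T × T × T) :
    bf β x y = β x.1 y.2.2 - β x.2.1 y.2.1 + β x.2.2 y.1 := rfl

variable (β : T →ₗ[ℚ] T →ₗ[ℚ] ℚ)

theorem bf_symm (hs : ∀ s t, β s t = β t s) (x y : T × T × T) : bf β x y = bf β y x := by
  rw [bf_apply, bf_apply, hs x.1, hs x.2.1, hs x.2.2]
  ring

theorem bf_nondeg (hs : ∀ s t, β s t = β t s) (hd : ∀ t, β t t = 0 → t = 0) : Nondeg (bf β) := by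
  have h : ∀ x, (∀ y, bf β x y = 0) → x = 0 := by
    intro x hx
    have h1 := hx (0, 0, x.1)
    have h2 := hx (0, x.2.1, 0)
    have h3 := hx (x.2.2, 0, 0)
    simp only [bf_apply, map_zero, sub_zero, add_zero, zero_sub, zero_add, neg_eq_zero] at h1 h2 h3
    exact Prod.ext (hd _ h1) (Prod.ext (hd _ h2) (hd _ h3))
  exact ⟨h, fun y hy => h y fun x => (bf_symm β hs y x).trans (hy x)⟩

theorem skew_h : Skew (bf β) (h0 T) := by
  intro x y
  simp only [bf_apply, h0_apply, map_smul, LinearMap.smul_apply, map_zero, LinearMap.zero_apply,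
    smul_eq_mul]
  ring

theorem skew_N : Skew (bf β) (N0 T) := by
  intro x y
  simp only [bf_apply, N0_apply, map_zero, LinearMap.zero_apply]
  ring

theorem Skew.comm' {V : Type} [AddCommGroup V] [Module ℚ V] {b : LinearMap.BilinForm ℚ V}
    {Y Z : Module.End ℚ V} (hY : Skew b Y) (hZ : Skew b Z) : Skew b (Y * Z - Z * Y) := by
  intro x y
  have h1 := hY (Z x) y
  have h2 := hZ x (Y y)
  have h3 := hZ (Y x) y
  have h4 := hY x (Z y)
  simp only [LinearMap.sub_apply, Module.End.mul_apply, map_sub]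
  linear_combination h1 - h2 - h3 + h4

/-- The pairs `(Y, Y)` with `Y` skew. -/
def gg : Submodule ℚ (∀ _ : Fin 2, Module.End ℚ (T × T × T)) where
  carrier := {Y | Y 0 = Y 1 ∧ Skew (bf β) (Y 0)}
  zero_mem' := ⟨rfl, fun x y => by simp⟩
  add_mem' := by
    rintro a b ⟨h1, h2⟩ ⟨h3, h4⟩
    refine ⟨by rw [Pi.add_apply, Pi.add_apply, h1, h3], fun x y => ?_⟩
    have h5 := h2 x y
    have h6 := h4 x y
    simp only [Pi.add_apply, LinearMap.add_apply, map_add]
    linear_combination h5 + h6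
  smul_mem' := by
    rintro c a ⟨h1, h2⟩
    refine ⟨by rw [Pi.smul_apply, Pi.smul_apply, h1], fun x y => ?_⟩
    have h5 := h2 x y
    simp only [Pi.smul_apply, LinearMap.smul_apply, map_smul, smul_eq_mul]
    linear_combination c * h5

theorem gg_stable : (X T).Stable (gg β) where
  h_mem := ⟨rfl, skew_h β⟩
  comm := by
    rintro Y ⟨h1, h2⟩
    refine ⟨?_, Skew.comm' h2 (skew_N β)⟩
    show Y 0 * N0 T - N0 T * Y 0 = Y 1 * N0 T - N0 T * Y 1
    rw [h1]

theorem gg_so (hs : ∀ s t, β s t = β t s) :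
    ActsAsSo (H := fun _ : Fin 2 => T × T × T) (gg β) 0 (bf β) where
  symm := bf_symm β hs
  skew := fun Y hY => hY.2
  lift := fun Z hZ => ⟨fun _ => Z, ⟨rfl, hZ⟩, rfl⟩
  faithful := by
    rintro Y ⟨h1, h2⟩ h0
    funext j
    match j with
    | 0 => exact h0
    | 1 => exact h1.symm.trans h0

end

theorem pm0 : (X ℚ).PM 0 := by
  rw [LogCoh.pm_iff]
  intro e
  have hW : ∀ w, (X ℚ).W 0 w = W0 ℚ 2 w := fun w => rfl
  have hd : ((X ℚ).deg 0 : ℤ) = 2 := rfl
  have hN : (X ℚ).N 0 = N0 ℚ := rfl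
  rw [hW, hW, hd, hN]
  match e with
  | 0 => exact ⟨fun x _ hx => by simpa using hx, fun y hy => ⟨y, by simpa using hy, by simp⟩⟩
  | 1 =>
    constructor
    · intro x hx _
      obtain ⟨h1, h2, h3⟩ := mem_W0.1 hx
      exact Prod.ext (h1 (by norm_num)) (Prod.ext (h2 (by norm_num)) (h3 (by norm_num)))
    · intro y hy
      obtain ⟨h1, h2, h3⟩ := mem_W0.1 hy
      have hy0 : y = 0 :=
        Prod.ext (h1 (by norm_num)) (Prod.ext (h2 (by norm_num)) (h3 (by norm_num)))
      exact ⟨0, zero_mem _, by rw [hy0, map_zero]⟩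
  | 2 =>
    constructor
    · intro x hx h0
      obtain ⟨h1, h2, h3⟩ := mem_W0.1 hx
      rw [pow_two, Module.End.mul_apply, N0_apply, N0_apply] at h0
      have h4 : x.1 = 0 := congrArg (fun z : ℚ × ℚ × ℚ => z.2.2) h0
      exact Prod.ext h4 (Prod.ext (h2 (by norm_num)) (h3 (by norm_num)))
    · intro y hy
      obtain ⟨h1, h2, h3⟩ := mem_W0.1 hy
      refine ⟨(y.2.2, 0, 0), mem_W0.2 ⟨fun h => absurd (by norm_num) h, fun _ => rfl,
        fun _ => rfl⟩, ?_⟩
      rw [pow_two, Module.End.mul_apply, N0_apply, N0_apply]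
      exact Prod.ext (h1 (by norm_num)).symm (Prod.ext (h2 (by norm_num)).symm rfl)
  | (n + 3) =>
    constructor
    · intro x hx _
      obtain ⟨h1, h2, h3⟩ := mem_W0.1 hx
      exact Prod.ext (h1 (by push_cast; omega)) (Prod.ext (h2 (by push_cast; omega))
        (h3 (by push_cast; omega)))
    · intro y hy
      obtain ⟨h1, h2, h3⟩ := mem_W0.1 hy
      have hy0 : y = 0 := Prod.ext (h1 (by push_cast; omega)) (Prod.ext (h2 (by push_cast; omega))
        (h3 (by push_cast; omega)))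
      exact ⟨0, zero_mem _, by rw [hy0, map_zero]⟩

end ExH

open ExH in
/-- The hypotheses of the criterion can be satisfied with `N ≠ 0`: there are groups of
degrees `2` and `4` and a space `g` which acts as the orthogonal Lie algebra. -/
theorem exists_example : ∃ (H : Fin 2 → Type) (_ : ∀ j, AddCommGroup (H j))
    (_ : ∀ j, Module ℚ (H j)) (_ : ∀ j, FiniteDimensional ℚ (H j)) (X : LogCoh ℚ H)
    (g : Submodule ℚ (∀ j, Module.End ℚ (H j))) (b : LinearMap.BilinForm ℚ (H 0)),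
    X.deg 0 = 2 ∧ X.deg 1 = 4 ∧ X.N 0 ≠ 0 ∧ X.N 1 ≠ 0 ∧ X.Stable g ∧ Nondeg b ∧ ActsAsSo g 0 b ∧
      X.PM 0 := by
  have hN : N0 ℚ ≠ 0 := by
    intro h
    have h1 := congrArg (fun z : ℚ × ℚ × ℚ => z.2.1) (LinearMap.congr_fun h ((1 : ℚ), (0 : ℚ), (0 : ℚ)))
    exact one_ne_zero h1
  let β : ℚ →ₗ[ℚ] ℚ →ₗ[ℚ] ℚ := LinearMap.mul ℚ ℚ
  have hs : ∀ s t, β s t = β t s := fun s t => mul_comm s t
  have hd : ∀ t, β t t = 0 → t = 0 := fun t h => mul_self_eq_zero.1 h
  exact ⟨fun _ => ℚ × ℚ × ℚ, fun _ => inferInstance, fun _ => inferInstance,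
    fun _ => inferInstance, ExH.X ℚ, gg β, bf β, rfl, rfl, hN, hN, gg_stable _,
    bf_nondeg _ hs hd, gg_so _ hs, pm0⟩

end Pool.Agent.MP_f8720a_ag.HK
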