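import Mathlib

/-!
# Projections onto the pieces of a grading
-/

namespace Pool.Agent.MP_f8720a_ag.HK

variable {F V : Type} [Field F] [AddCommGroup V] [Module F V] [FiniteDimensional F V]

/-- The projections of a finite-dimensional graded space. -/
theorem proj (G : ℤ → Submodule F V) (hG : DirectSum.IsInternal G) :
    ∃ (p : ℤ → Module.End F V) (s : Finset ℤ), (∀ k x, p k x ∈ G k) ∧
      (∀ k, ∀ x ∈ G k, p k x = x) ∧ (∀ k l, k ≠ l → ∀ x ∈ G k, p l x = 0) ∧
      (∀ k, k ∉ s → G k = ⊥) ∧ ∀ x, ∑ k ∈ s, p k x = x := by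
  classical
  let _ : DirectSum.Decomposition G := hG.chooseDecomposition
  have hfin : {k : ℤ | G k ≠ ⊥}.Finite := WellFoundedGT.finite_ne_bot_of_iSupIndep hG.submodule_iSupIndep
  let p : ℤ → Module.End F V := fun k =>
    (G k).subtype ∘ₗ DirectSum.component F ℤ (fun i => G i) k ∘ₗ (DirectSum.decomposeLinearEquiv G).toLinearMap
  have hp : ∀ k x, p k x = (DirectSum.decompose G x k : V) := fun _ _ => rfl
  have hs : ∀ k, k ∉ hfin.toFinset → G k = ⊥ := by
    intro k hk
    by_contra hcon
    exact hk ((Set.Finite.mem_toFinset hfin).2 hcon)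
  refine ⟨p, hfin.toFinset, ?_, ?_, ?_, hs, ?_⟩
  · intro k x
    rw [hp]
    exact (DirectSum.decompose G x k).2
  · intro k x hx
    rw [hp]
    exact DirectSum.decompose_of_mem_same G hx
  · intro k l hkl x hx
    rw [hp]
    exact DirectSum.decompose_of_mem_ne G hx hkl
  · intro x
    have h1 := DirectSum.sum_support_decompose G x
    have h2 : ∑ k ∈ hfin.toFinset, p k x = ∑ k ∈ (DirectSum.decompose G x).support, (DirectSum.decompose G x k : V) := by
      refine (Finset.sum_subset ?_ ?_).symm
      · intro k hk
        by_contra hcon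
        have h3 := hs k hcon
        rw [DFinsupp.mem_support_iff] at hk
        apply hk
        have h4 : (DirectSum.decompose G x k : V) ∈ G k := (DirectSum.decompose G x k).2
        have h5 : ∀ v : V, v ∈ G k → v = 0 := by
          intro v hv
          rw [h3, Submodule.mem_bot] at hv
          exact hv
        exact Subtype.ext (h5 _ h4)
      · intro k _ hk
        rw [DFinsupp.notMem_support_iff] at hk
        rw [hp, hk]
        rfl
    rw [h2, h1]

end Pool.Agent.MP_f8720a_ag.HK
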