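import Pool.Agent.Lib.MP_f8720a_ag.HK.Mono
import Pool.Agent.Lib.MP_f8720a_ag.HK.Proj

/-!
# Weight spaces and the weight filtration
-/

namespace Pool.Agent.MP_f8720a_ag.HK

section Defs

variable {F V : Type} [Field F] [AddCommGroup V] [Module F V]

/-- The increasing filtration given by the weight spaces: the sum of the `W w` with `w ≤ k`. -/
def filt (W : ℤ → Submodule F V) (k : ℤ) : Submodule F V :=
  ⨆ w : {w : ℤ // w ≤ k}, W w

end Defs

variable {F V : Type} [Field F] [AddCommGroup V] [Module F V] [FiniteDimensional F V]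

private theorem le_filt (W : ℤ → Submodule F V) {w k : ℤ} (h : w ≤ k) : W w ≤ filt W k :=
  le_iSup (fun w : {w : ℤ // w ≤ k} => W w) ⟨w, h⟩

section Mem

variable {W : ℤ → Submodule F V} {p : ℤ → Module.End F V} {s : Finset ℤ}
  (h1 : ∀ k x, p k x ∈ W k) (h3 : ∀ k l, k ≠ l → ∀ x ∈ W k, p l x = 0)
  (h5 : ∀ x, ∑ k ∈ s, p k x = x)
include h1 h3 h5

private theorem mem_filt (k : ℤ) (x : V) : x ∈ filt W k ↔ ∀ w, k < w → p w x = 0 := by
  constructor
  · intro hx w hw
    have hle : filt W k ≤ LinearMap.ker (p w) := by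
      refine iSup_le fun v => ?_
      intro y hy
      exact h3 v w (by have := v.2; omega) y hy
    exact hle hx
  · intro h
    rw [← h5 x]
    refine Submodule.sum_mem _ fun w _ => ?_
    rcases lt_or_ge k w with hw | hw
    · rw [h w hw]
      exact Submodule.zero_mem _
    · exact le_filt W hw (h1 w x)

private theorem eq_zero (x : V) (h : ∀ w, p w x = 0) : x = 0 := by
  rw [← h5 x]
  exact Finset.sum_eq_zero fun w _ => h w

end Mem

private theorem pow_mem {W : ℤ → Submodule F V} {N : Module.End F V}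
    (hN : ∀ w, ∀ x ∈ W w, N x ∈ W (w - 2)) (e : ℕ) : ∀ w, ∀ x ∈ W w, (N ^ e) x ∈ W (w - 2 * e) := by
  induction e with
  | zero =>
    intro w x hx
    simpa using hx
  | succ e ih =>
    intro w x hx
    rw [pow_succ', Module.End.mul_apply]
    have h := hN _ _ (ih w x hx)
    have e1 : w - 2 * (e : ℤ) - 2 = w - 2 * ((e + 1 : ℕ) : ℤ) := by push_cast; ring
    rwa [e1] at h

private theorem proj_comm {W : ℤ → Submodule F V} {p : ℤ → Module.End F V} {s : Finset ℤ}
    (h1 : ∀ k x, p k x ∈ W k) (h2 : ∀ k, ∀ x ∈ W k, p k x = x)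
    (h3 : ∀ k l, k ≠ l → ∀ x ∈ W k, p l x = 0) (h4 : ∀ k, k ∉ s → W k = ⊥)
    (h5 : ∀ x, ∑ k ∈ s, p k x = x) {N : Module.End F V}
    (hN : ∀ w, ∀ x ∈ W w, N x ∈ W (w - 2)) (e : ℕ) (w : ℤ) (x : V) :
    p (w - 2 * e) ((N ^ e) x) = (N ^ e) (p w x) := by
  conv_lhs => rw [← h5 x]
  rw [map_sum, map_sum]
  by_cases hw : w ∈ s
  · rw [Finset.sum_eq_single w]
    · exact h2 _ _ (pow_mem hN e w _ (h1 w x))
    · intro k _ hk
      exact h3 (k - 2 * e) _ (by omega) _ (pow_mem hN e k _ (h1 k x))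
    · intro h
      exact absurd hw h
  · have hz : p w x = 0 := by
      have h := h1 w x
      rw [h4 w hw, Submodule.mem_bot] at h
      exact h
    rw [hz, map_zero]
    refine Finset.sum_eq_zero fun k hk => ?_
    have hkw : k ≠ w := fun h => hw (h ▸ hk)
    exact h3 (k - 2 * e) _ (by omega) _ (pow_mem hN e k _ (h1 k x))

theorem filt_isWeight (W : ℤ → Submodule F V) (hW : DirectSum.IsInternal W)
    (N : Module.End F V) (hN : ∀ w, ∀ x ∈ W w, N x ∈ W (w - 2)) (q : ℕ)
    (hb : ∀ w, w < 0 ∨ 2 * (q : ℤ) < w → W w = ⊥) : IsWeight N q (filt W) := by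
  obtain ⟨p, s, h1, h2, h3, h4, h5⟩ := proj W hW
  have hb' : ∀ w, w < 0 ∨ 2 * (q : ℤ) < w → ∀ x, p w x = 0 := by
    intro w hw x
    have h := h1 w x
    rw [hb w hw, Submodule.mem_bot] at h
    exact h
  refine ⟨?_, ?_, ?_, ?_⟩
  · intro k l hkl x hx
    rw [mem_filt h1 h3 h5] at hx ⊢
    exact fun w hw => hx w (lt_of_le_of_lt hkl hw)
  · rw [eq_bot_iff]
    intro x hx
    rw [mem_filt h1 h3 h5] at hx
    rw [Submodule.mem_bot]
    refine eq_zero h1 h3 h5 x fun w => ?_
    rcases lt_or_ge w 0 with h | h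
    · exact hb' w (Or.inl h) x
    · exact hx w (by omega)
  · rw [eq_top_iff]
    intro x _
    rw [mem_filt h1 h3 h5]
    exact fun w hw => hb' w (Or.inr hw) x
  · intro k
    rw [Submodule.map_le_iff_le_comap]
    refine iSup_le fun w => ?_
    intro x hx
    have hw := w.2
    exact le_filt W (by omega : (w : ℤ) - 2 ≤ k - 2) (hN w x hx)

/-- The step `e` in terms of the weight spaces. -/
theorem filt_step (W : ℤ → Submodule F V) (hW : DirectSum.IsInternal W)
    (N : Module.End F V) (hN : ∀ w, ∀ x ∈ W w, N x ∈ W (w - 2)) (q : ℤ) (e : ℕ) :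
    StepIso N (filt W) q e ↔
      (∀ x ∈ W (q + e), (N ^ e) x = 0 → x = 0) ∧
        ∀ y ∈ W (q - e), ∃ x ∈ W (q + e), (N ^ e) x = y := by
  obtain ⟨p, s, h1, h2, h3, h4, h5⟩ := proj W hW
  have hc : ∀ x, p (q - e) ((N ^ e) x) = (N ^ e) (p (q + e) x) := by
    intro x
    have h := proj_comm h1 h2 h3 h4 h5 hN e (q + e) x
    have e1 : q + (e : ℤ) - 2 * e = q - e := by ring
    rwa [e1] at h
  constructor
  · rintro ⟨ha, hb⟩
    constructor
    · intro x hx h0
      have h := ha x (le_filt W le_rfl hx) (by rw [h0]; exact Submodule.zero_mem _)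
      rw [mem_filt h1 h3 h5] at h
      have h6 := h (q + e) (by omega)
      rwa [h2 _ x hx] at h6
    · intro y hy
      obtain ⟨x, -, hxy⟩ := hb y (le_filt W le_rfl hy)
      rw [mem_filt h1 h3 h5] at hxy
      have h6 := hxy (q - e) (by omega)
      rw [map_sub, h2 _ y hy, hc] at h6
      exact ⟨p (q + e) x, h1 _ x, (sub_eq_zero.1 h6).symm⟩
  · rintro ⟨ha, hb⟩
    constructor
    · intro x hx hNx
      rw [mem_filt h1 h3 h5] at hx hNx ⊢
      intro w hw
      rcases lt_or_ge (q + (e : ℤ)) w with h | h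
      · exact hx w h
      · have hw' : w = q + e := by omega
        subst hw'
        refine ha _ (h1 _ x) ?_
        rw [← hc]
        exact hNx (q - e) (by omega)
    · intro y hy
      obtain ⟨x, hx, hxy⟩ := hb (p (q - e) y) (h1 _ y)
      refine ⟨x, le_filt W le_rfl hx, ?_⟩
      rw [mem_filt h1 h3 h5] at hy ⊢
      intro w hw
      rw [hxy, map_sub]
      rcases lt_or_ge (q - (e : ℤ)) w with h | h
      · rw [hy w h, h3 (q - e) w (by omega) _ (h1 _ y), sub_zero]
      · have hw' : w = q - e := by omega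
        subst hw'
        rw [h2 _ _ (h1 _ y), sub_self]

theorem filt_finrank (W : ℤ → Submodule F V) (hW : DirectSum.IsInternal W) (k : ℤ) :
    Module.finrank F (Gr (filt W) k) = Module.finrank F (W k) := by
  obtain ⟨p, s, h1, h2, h3, h4, h5⟩ := proj W hW
  let φ : W k →ₗ[F] Gr (filt W) k :=
    (Submodule.mkQ ((filt W (k - 1)).comap (filt W k).subtype)) ∘ₗ
      Submodule.inclusion (le_filt W (le_refl k))
  have hφ : Function.Bijective φ := by
    constructor
    · rw [injective_iff_map_eq_zero]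
      intro x hx
      have hx' : (Submodule.inclusion (le_filt W (le_refl k)) x) ∈
          (filt W (k - 1)).comap (filt W k).subtype := (Submodule.Quotient.mk_eq_zero _).1 hx
      rw [Submodule.mem_comap] at hx'
      have h6 : (x : V) ∈ filt W (k - 1) := hx'
      rw [mem_filt h1 h3 h5] at h6
      have h7 := h6 k (by omega)
      rw [h2 k x x.2] at h7
      exact Subtype.ext h7
    · intro y
      obtain ⟨z, rfl⟩ := Submodule.Quotient.mk_surjective _ y
      refine ⟨⟨p k z, h1 k z⟩, ?_⟩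
      refine (Submodule.Quotient.eq _).2 ?_
      rw [Submodule.mem_comap]
      show (p k (z : V)) - (z : V) ∈ filt W (k - 1)
      have hz := z.2
      rw [mem_filt h1 h3 h5] at hz ⊢
      intro w hw
      rw [map_sub]
      rcases lt_or_ge k w with h | h
      · rw [hz w h, h3 k w (by omega) _ (h1 k z), sub_zero]
      · have hw' : w = k := by omega
        subst hw'
        rw [h2 _ _ (h1 _ _), sub_self]
  exact (LinearEquiv.ofBijective φ hφ).finrank_eq.symm

end Pool.Agent.MP_f8720a_ag.HK
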