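import Pool.Agent.Lib.MP_f8720a_ag.HK.Tens

/-!
# Products
-/

namespace Pool.Agent.MP_f8720a_ag.HK

theorem pow_mem_grade {F V : Type} [Field F] [AddCommGroup V] [Module F V] (G : ℤ → Submodule F V)
    (N : Module.End F V) (hN : ∀ j, ∀ x ∈ G j, N x ∈ G (j - 2)) (k : ℕ) (j : ℤ) (x : V)
    (hx : x ∈ G j) : (N ^ k) x ∈ G (j - 2 * k) := by
  induction k with
  | zero => simpa using hx
  | succ k ih =>
    rw [pow_succ', Module.End.mul_apply]
    have := hN _ _ ih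
    convert this using 2
    push_cast
    ring

theorem pow_zero_of {F V : Type} [Field F] [AddCommGroup V] [Module F V]
    (N : Module.End F V) (a : ℕ) (x : V) (hx : (N ^ (a + 1)) x = 0) (i : ℕ) (hi : a < i) :
    (N ^ i) x = 0 := by
  obtain ⟨c, rfl⟩ := Nat.exists_eq_add_of_le' (Nat.succ_le_of_lt hi)
  rw [pow_add, Module.End.mul_apply]
  have : (N ^ a.succ) x = 0 := hx
  rw [this, map_zero]

theorem strings_mul {F V₁ V₂ V₃ : Type} [Field F] [CharZero F] [AddCommGroup V₁] [Module F V₁]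
    [AddCommGroup V₂] [Module F V₂] [AddCommGroup V₃] [Module F V₃] (G₁ : ℤ → Submodule F V₁)
    (G₂ : ℤ → Submodule F V₂) (G₃ : ℤ → Submodule F V₃) (N₁ : Module.End F V₁)
    (N₂ : Module.End F V₂) (N₃ : Module.End F V₃)
    (h₁ : ∀ j, ∀ x ∈ G₁ j, N₁ x ∈ G₁ (j - 2)) (h₂ : ∀ j, ∀ x ∈ G₂ j, N₂ x ∈ G₂ (j - 2))
    (m : V₁ →ₗ[F] V₂ →ₗ[F] V₃) (hm : ∀ i j, ∀ x ∈ G₁ i, ∀ y ∈ G₂ j, m x y ∈ G₃ (i + j))
    (hN : ∀ x y, N₃ (m x y) = m (N₁ x) y + m x (N₂ y)) (x : V₁) (hx : x ∈ strings G₁ N₁)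
    (y : V₂) (hy : y ∈ strings G₂ N₂) : m x y ∈ strings G₃ N₃ := by
  refine Submodule.span_induction (p := fun x _ => m x y ∈ strings G₃ N₃) ?_ ?_ ?_ ?_ hx
  · rintro _ ⟨a, k, p, hp, hp0, rfl⟩
    refine Submodule.span_induction
      (p := fun y _ => m ((N₁ ^ k) p) y ∈ strings G₃ N₃) ?_ ?_ ?_ ?_ hy
    · rintro _ ⟨b, l, r, hr, hr0, rfl⟩
      refine tens a b G₃ N₃ (fun i j => m ((N₁ ^ i) p) ((N₂ ^ j) r)) ?_ ?_ ?_ k l
      · intro i j
        rw [hN, pow_succ' N₁, pow_succ' N₂, Module.End.mul_apply, Module.End.mul_apply]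
      · rintro i j (h | h)
        · simp only [pow_zero_of N₁ a p hp0 i h, map_zero, LinearMap.zero_apply]
        · simp only [pow_zero_of N₂ b r hr0 j h, map_zero]
      · intro i j
        have h1 := pow_mem_grade G₁ N₁ h₁ i a p hp
        have h2 := pow_mem_grade G₂ N₂ h₂ j b r hr
        have h3 := hm _ _ _ h1 _ h2
        convert h3 using 2
        ring
    · rw [map_zero]
      exact zero_mem _
    · intro y y' _ _ hy hy'
      rw [map_add]
      exact add_mem hy hy'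
    · intro c y _ hy
      rw [map_smul]
      exact Submodule.smul_mem _ _ hy
  · rw [map_zero, LinearMap.zero_apply]
    exact zero_mem _
  · intro x x' _ _ hx hx'
    rw [map_add, LinearMap.add_apply]
    exact add_mem hx hx'
  · intro c x _ hx
    rw [map_smul, LinearMap.smul_apply]
    exact Submodule.smul_mem _ _ hx

end Pool.Agent.MP_f8720a_ag.HK
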