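import Mathlib

/-!
# The trace form of the orthogonal Lie algebra
-/

namespace Pool.Agent.MP_f8720a_ag.HK

variable {F V : Type} [Field F] [CharZero F] [AddCommGroup V] [Module F V]
  [FiniteDimensional F V]

/-- The trace form of `V` is nondegenerate on the Lie algebra of a nondegenerate symmetric form. -/
theorem so_nondeg (B : LinearMap.BilinForm F V) (hs : ∀ x y, B x y = B y x)
    (hnd : ∀ x, (∀ y, B x y = 0) → x = 0) (X : Module.End F V)
    (hX : ∀ x y, B (X x) y + B x (X y) = 0)
    (h0 : ∀ Y : Module.End F V, (∀ x y, B (Y x) y + B x (Y y) = 0) →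
      LinearMap.trace F V (X * Y) = 0) : X = 0 := by
  have key : ∀ a b : V, B a (X b) = 0 := by
    intro a b
    have h1 := h0 ((B a).smulRight b - (B b).smulRight a) (by
      intro x y
      simp only [LinearMap.sub_apply, LinearMap.smulRight_apply, map_sub, map_smul, smul_eq_mul,
        LinearMap.smul_apply]
      rw [hs x b, hs x a]
      ring)
    have h2 : X * ((B a).smulRight b - (B b).smulRight a) =
        (B a).smulRight (X b) - (B b).smulRight (X a) := by
      ext v
      simp only [Module.End.mul_apply, LinearMap.sub_apply, LinearMap.smulRight_apply, map_sub,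
        map_smul]
    rw [h2, map_sub, LinearMap.trace_smulRight, LinearMap.trace_smulRight] at h1
    have h3 := hX a b
    rw [hs (X a) b] at h3
    have h4 : B b (X a) = -B a (X b) := eq_neg_of_add_eq_zero_left h3
    rw [h4, sub_neg_eq_add, ← two_mul] at h1
    exact (mul_eq_zero.1 h1).resolve_left two_ne_zero
  ext b
  apply hnd
  intro a
  rw [hs]
  exact key a b

end Pool.Agent.MP_f8720a_ag.HK
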