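import Pool.Agent.Lib.MP_f8720a_ag.HK.StrDefs
import Pool.Agent.Lib.MP_f8720a_ag.HK.Proj

/-!
# Strings and surjectivity

PLAN. y in G (-e); y in strings, apply the projection p (-e): every generator N^k v, v in G a, is
homogeneous of degree a - 2 k, so p (-e) (N^k v) is N^k v if a - 2k = -e, else 0; in the first case
2k = a + e; if k > a it is 0 = N^e 0; if k <= a then e <= k and N^k v = N^e (N^(k-e) v), with
N^(k-e) v in G e. Use Submodule.span_induction for the statement (exists x in G e, N^e x = p (-e) y).
-/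

namespace Pool.Agent.MP_f8720a_ag.HK

variable {F V : Type} [Field F] [AddCommGroup V] [Module F V] [FiniteDimensional F V]

private theorem pow_mem' (G : ℤ → Submodule F V) (N : Module.End F V)
    (hN : ∀ j, ∀ x ∈ G j, N x ∈ G (j - 2)) (j : ℤ) (x : V) (hx : x ∈ G j) (k : ℕ) :
    (N ^ k) x ∈ G (j - 2 * k) := by
  induction k with
  | zero => simpa using hx
  | succ k ih =>
    have h := hN _ _ ih
    rw [pow_succ', Module.End.mul_apply]
    have e : j - 2 * ((k + 1 : ℕ) : ℤ) = j - 2 * k - 2 := by push_cast; ring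
    rw [e]
    exact h

theorem surj_of_strings (G : ℤ → Submodule F V) (hG : DirectSum.IsInternal G)
    (N : Module.End F V) (hN : ∀ j, ∀ x ∈ G j, N x ∈ G (j - 2)) (h : strings G N = ⊤) (e : ℕ) :
    ∀ y ∈ G (-e), ∃ x ∈ G e, (N ^ e) x = y := by
  obtain ⟨p, s, -, h2, h3, -, -⟩ := proj G hG
  have key : ∀ y ∈ strings G N, ∃ x ∈ G e, (N ^ e) x = p (-e) y := by
    intro y hy
    induction hy using Submodule.span_induction with
    | mem y hy =>
      obtain ⟨a, k, v, hv, h0, rfl⟩ := hy
      have hm := pow_mem' G N hN a v hv k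
      by_cases hak : (a : ℤ) - 2 * k = -e
      · rcases Nat.lt_or_ge a k with hk | hk
        · refine ⟨0, Submodule.zero_mem _, ?_⟩
          have e1 : k = (k - (a + 1)) + (a + 1) := by omega
          have e2 : (N ^ k) v = 0 := by
            rw [e1, pow_add, Module.End.mul_apply, h0, map_zero]
          rw [e2, map_zero, map_zero]
        · have hek : e ≤ k := by omega
          refine ⟨(N ^ (k - e)) v, ?_, ?_⟩
          · have := pow_mem' G N hN a v hv (k - e)
            have e1 : (a : ℤ) - 2 * ((k - e : ℕ) : ℤ) = e := by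
              rw [Nat.cast_sub hek]
              linarith
            rw [e1] at this
            exact this
          · rw [← Module.End.mul_apply, ← pow_add, Nat.add_sub_cancel' hek]
            rw [hak] at hm
            exact (h2 _ _ hm).symm
      · refine ⟨0, Submodule.zero_mem _, ?_⟩
        rw [map_zero]
        exact (h3 _ _ hak _ hm).symm
    | zero => exact ⟨0, Submodule.zero_mem _, by rw [map_zero, map_zero]⟩
    | add y z _ _ hy hz =>
      obtain ⟨x, hx, hxy⟩ := hy
      obtain ⟨x', hx', hxz⟩ := hz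
      exact ⟨x + x', Submodule.add_mem _ hx hx', by rw [map_add, map_add, hxy, hxz]⟩
    | smul c y _ hy =>
      obtain ⟨x, hx, hxy⟩ := hy
      exact ⟨c • x, Submodule.smul_mem _ _ hx, by rw [map_smul, map_smul, hxy]⟩
  intro y hy
  obtain ⟨x, hx, hxy⟩ := key y (h ▸ Submodule.mem_top)
  exact ⟨x, hx, hxy.trans (h2 _ _ hy)⟩

end Pool.Agent.MP_f8720a_ag.HK
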