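import Pool.Agent.Lib.MP_f8720a_ag.HK.Defs
import Pool.Agent.Lib.MP_f8720a_ag.HK.Crit
import Pool.Agent.Lib.MP_f8720a_ag.HK.So
import Pool.Agent.Lib.MP_f8720a_ag.HK.Dim
import Pool.Agent.Lib.MP_f8720a_ag.HK.Dim2
import Pool.Agent.Lib.MP_f8720a_ag.HK.Mul
import Pool.Agent.Lib.MP_f8720a_ag.HK.StrS
import Pool.Agent.Lib.MP_f8720a_ag.HK.Dual

/-!
# The criterion for log cohomology
-/

namespace Pool.Agent.MP_f8720a_ag.HK

variable {F J : Type} [Field F] [CharZero F] {H : J → Type} [∀ j, AddCommGroup (H j)]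
  [∀ j, Module F (H j)] [∀ j, FiniteDimensional F (H j)]

omit [CharZero F] [∀ j, FiniteDimensional F (H j)] in
/-- the weight spaces, centred -/
theorem internal_shift {V : Type} [AddCommGroup V] [Module F V] (W : ℤ → Submodule F V)
    (hW : DirectSum.IsInternal W) (q : ℤ) : DirectSum.IsInternal fun w => W (q + w) := by
  classical
  have h1 := hW.submodule_iSupIndep
  have h2 := hW.submodule_iSup_eq_top
  apply DirectSum.isInternal_submodule_of_iSupIndep_of_iSup_eq_top
  · exact h1.comp (add_right_injective q)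
  · rw [← h2]
    exact (Equiv.addLeft q).iSup_comp (g := W)

namespace LogCoh

variable (X : LogCoh F H)

omit [CharZero F] in
theorem pm_iff (j : J) : X.PM j ↔ ∀ e : ℕ,
    (∀ x ∈ X.W j (X.deg j + e), (X.N j ^ e) x = 0 → x = 0) ∧
      ∀ y ∈ X.W j (X.deg j + -(e : ℤ)), ∃ x ∈ X.W j (X.deg j + e), (X.N j ^ e) x = y := by
  have hw := filt_isWeight (X.W j) (X.internal j) (X.N j) (X.lower j) (X.deg j) (X.bound j)
  have hst := fun e => filt_step (X.W j) (X.internal j) (X.N j) (X.lower j) (X.deg j) e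
  constructor
  · intro h e
    rcases Nat.eq_zero_or_pos e with he | he
    · subst he
      refine ⟨fun x _ hx => by simpa using hx, fun y hy => ⟨y, ?_, by simp⟩⟩
      simpa using hy
    · exact (hst e).1 (h.iso e he)
  · intro h
    refine ⟨hw.mono, ⟨_, hw.bot⟩, ⟨_, hw.top⟩, hw.step, fun e _ => (hst e).2 (h e)⟩

omit [CharZero F] in
theorem pm_iff_surj (j : J) : X.PM j ↔ X.Surj j ∧ ∀ e : ℕ,
    ∀ x ∈ X.W j (X.deg j + e), (X.N j ^ e) x = 0 → x = 0 := by
  rw [X.pm_iff]
  constructor
  · intro h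
    exact ⟨fun e y hy => (h e).2 y (by rwa [← sub_eq_add_neg]), fun e => (h e).1⟩
  · rintro ⟨h1, h2⟩ e
    exact ⟨h2 e, fun y hy => h1 e y (by rwa [← sub_eq_add_neg] at hy)⟩

omit [CharZero F] [∀ j, FiniteDimensional F (H j)] in
theorem lower' (j : J) (w : ℤ) (x : H j) (hx : x ∈ X.W j (X.deg j + w)) :
    X.N j x ∈ X.W j (X.deg j + (w - 2)) := by
  have := X.lower j _ x hx
  rwa [add_sub_assoc] at this

omit [CharZero F] in
theorem surj_iff (j : J) : X.Surj j ↔
    strings (fun w => X.W j (X.deg j + w)) (X.N j) = ⊤ := by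
  constructor
  · intro h
    refine strings_eq_top _ (internal_shift _ (X.internal j) _) _ (X.lower' j) fun e y hy => ?_
    exact h e y (by rwa [sub_eq_add_neg])
  · intro h e y hy
    refine surj_of_strings _ (internal_shift _ (X.internal j) _) _ (X.lower' j) h e y ?_
    rwa [← sub_eq_add_neg]

variable {X} in
theorem surj_of_generated {j : J} (h : X.Generated j) : X.Surj j := by
  rw [surj_iff, eq_top_iff, ← h, Submodule.span_le]
  rintro _ ⟨i, k, m, x, y, hm, hi, hk, rfl⟩
  rw [surj_iff] at hi hk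
  refine strings_mul (fun w => X.W i (X.deg i + w)) (fun w => X.W k (X.deg k + w)) _
    (X.N i) (X.N k) (X.N j) (X.lower' i) (X.lower' k) m ?_ hm.leibniz x ?_ y ?_
  · intro v w x hx y hy
    have h1 := hm.weight _ _ x hx y hy
    change m x y ∈ X.W j (X.deg j + (v + w))
    rw [hm.deg_add]
    convert h1 using 2
    push_cast
    ring
  · rw [hi]
    trivial
  · rw [hk]
    trivial

omit [CharZero F] [∀ j, FiniteDimensional F (H j)] in
variable {X} in
theorem IsDuality.symm {j j' : J} {b : H j →ₗ[F] H j' →ₗ[F] F} (hb : X.IsDuality b) :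
    X.IsDuality b.flip := by
  refine ⟨fun y h => hb.right y h, fun x h => hb.left x h, ?_, ?_⟩
  · intro v w hvw y hy x hx
    exact hb.weight w v (by rw [add_comm w v, add_comm (X.deg j : ℤ)]; exact hvw) x hx y hy
  · intro y x
    simp only [LinearMap.flip_apply]
    rw [hb.skew, neg_neg]

omit [CharZero F] in
variable {X} in
theorem IsDuality.pm {j j' : J} {b : H j →ₗ[F] H j' →ₗ[F] F} (hb : X.IsDuality b)
    (h : X.Surj j) (h' : X.Surj j') : X.PM j := by
  rw [pm_iff_surj]
  refine ⟨h, ?_⟩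
  refine inj_of_dual (fun w => X.W j (X.deg j + w)) (fun w => X.W j' (X.deg j' + w))
    (internal_shift _ (X.internal j') _) (X.N j) (X.N j') b hb.left ?_ hb.skew ?_
  · intro v w hvw x hx y hy
    refine hb.weight _ _ ?_ x hx y hy
    intro h0
    apply hvw
    omega
  · intro e y hy
    exact h' e y (by rwa [sub_eq_add_neg])

theorem crit_pm [Fintype J] (g : Submodule F (∀ j, Module.End F (H j))) (I : Finset J)
    (hg : X.Stable g) (hI : ∀ i ∈ I, X.PM i) (hT : TraceNondeg g I) (j : J) : X.PM j := by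
  rw [X.pm_iff]
  refine crit H (fun j w => X.W j (X.deg j + w))
    (fun j => internal_shift _ (X.internal j) _) X.N X.h ?_ ?_ g hg.h_mem hg.comm I ?_ hT j
  · intro j w x hx
    have := X.lower j _ x hx
    rwa [add_sub_assoc] at this
  · intro j w x hx
    rw [X.h_apply j _ x hx]
    congr 2
    ring
  · intro i hi
    exact (X.pm_iff i).1 (hI i hi)

variable {X}

/-- A nondegenerate form for which `h` is skew makes the dimensions symmetric. -/
theorem finrank_of_skew {j : J} (b : LinearMap.BilinForm F (H j)) (hb : Nondeg b)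
    (hh : Skew b (X.h j)) (e : ℕ) : Module.finrank F (X.W j (X.deg j + e)) =
      Module.finrank F (X.W j (X.deg j - e)) := by
  have h1 := dim_eq (fun w => X.W j (X.deg j + w)) (internal_shift _ (X.internal j) _) (X.h j)
    (by
      intro w x hx
      rw [X.h_apply j _ x hx]
      congr 2
      ring) b hb.1 hb.2 hh e
  exact h1

section

variable {J' : Type} {H' : J' → Type} [∀ k, AddCommGroup (H' k)] [∀ k, Module F (H' k)]
  [∀ k, FiniteDimensional F (H' k)] {Z : LogCoh F H'}

omit [CharZero F] in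
/-- Sections: `P = M` if and only if the dimensions are symmetric. -/
theorem IsSection.pm_iff {j : J} {k : J'} {i : H j →ₗ[F] H' k} (hi : X.IsSection Z i)
    (hk : Z.PM k) :
    X.PM j ↔ ∀ e : ℕ, Module.finrank F (X.W j (X.deg j + e)) =
      Module.finrank F (X.W j (X.deg j - e)) := by
  have hinj : ∀ e : ℕ, ∀ x ∈ X.W j (X.deg j + e), (X.N j ^ e) x = 0 → x = 0 := by
    intro e x hx h0
    apply hi.inj
    rw [map_zero]
    have hpow : ∀ (n : ℕ) (x : H j), i ((X.N j ^ n) x) = (Z.N k ^ n) (i x) := by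
      intro n
      induction n with
      | zero => intro x; simp
      | succ n ih =>
        intro x
        rw [pow_succ, pow_succ, Module.End.mul_apply, Module.End.mul_apply, ih, hi.comm]
    refine ((Z.pm_iff_surj k).1 hk).2 e (i x) ?_ ?_
    · rw [hi.deg_eq]
      exact hi.weight _ x hx
    · rw [← hpow, h0, map_zero]
  constructor
  · intro h e
    rw [pm_iff_surj] at h
    have h1 : ∀ x ∈ X.W j (X.deg j + e), (X.N j ^ e) x ∈ X.W j (X.deg j - e) := by
      intro x hx
      have := pow_mem_grade (X.W j) (X.N j) (X.lower j) e _ x hx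
      convert this using 2
      ring
    have h2 : Function.Bijective ((X.N j ^ e).restrict h1) := by
      constructor
      · rw [← LinearMap.ker_eq_bot, LinearMap.ker_eq_bot']
        intro x hx
        apply Subtype.ext
        exact h.2 e x.1 x.2 (congrArg Subtype.val hx)
      · intro y
        obtain ⟨x, hx, hxy⟩ := h.1 e y.1 y.2
        exact ⟨⟨x, hx⟩, Subtype.ext hxy⟩
    exact LinearEquiv.finrank_eq (LinearEquiv.ofBijective _ h2)
  · intro h
    rw [pm_iff_surj]
    refine ⟨fun e y hy => ?_, hinj⟩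
    refine surj_of_dim (fun w => X.W j (X.deg j + w)) (X.N j) (X.lower' j) e ?_ (hinj e) y ?_
    · have := h e
      rw [sub_eq_add_neg] at this
      exact this
    · rwa [← sub_eq_add_neg]

theorem IsSection.pm {j : J} {k : J'} {i : H j →ₗ[F] H' k} (hi : X.IsSection Z i)
    (hk : Z.PM k) (b : LinearMap.BilinForm F (H j)) (hb : Nondeg b) (hh : Skew b (X.h j)) :
    X.PM j :=
  (hi.pm_iff hk).2 (finrank_of_skew b hb hh)

end

omit [CharZero F] in
theorem SymSection.pm {j : J} (h : X.SymSection j) : X.PM j := by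
  obtain ⟨hd, H', _, _, _, Z, i, hi, hk⟩ := h
  exact (hi.pm_iff hk).2 hd

omit [CharZero F] in
/-- Duality transfers the statement. -/
theorem IsDuality.pm_dual {j j' : J} {b : H j →ₗ[F] H j' →ₗ[F] F} (hb : X.IsDuality b)
    (h : X.PM j) : X.PM j' := by
  have hw : ∀ v w : ℤ, v + w ≠ 0 → ∀ x ∈ X.W j (X.deg j + v), ∀ y ∈ X.W j' (X.deg j' + w),
      b x y = 0 := by
    intro v w hvw x hx y hy
    refine hb.weight _ _ ?_ x hx y hy
    intro h0
    apply hvw
    omega
  have hs := (X.pm_iff_surj j).1 h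
  have hinj : ∀ e : ℕ, ∀ x ∈ X.W j' (X.deg j' + e), (X.N j' ^ e) x = 0 → x = 0 := by
    intro e
    refine inj_of_dual (fun w => X.W j' (X.deg j' + w)) (fun w => X.W j (X.deg j + w))
      (internal_shift _ (X.internal j) _) (X.N j') (X.N j) b.flip hb.symm.left ?_
      hb.symm.skew ?_ e
    · intro v w hvw y hy x hx
      exact hw w v (by omega) x hx y hy
    · intro e y hy
      exact hs.1 e y (by rwa [sub_eq_add_neg])
  rw [pm_iff_surj]
  refine ⟨fun e y hy => ?_, hinj⟩
  have hd : ∀ v : ℤ, Module.finrank F (X.W j (X.deg j + v)) =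
      Module.finrank F (X.W j' (X.deg j' + -v)) := fun v =>
    dim_dual (fun w => X.W j (X.deg j + w)) (fun w => X.W j' (X.deg j' + w))
      (internal_shift _ (X.internal j) _) (internal_shift _ (X.internal j') _) b hb.left
      hb.right hw v
  have hN : ∀ x ∈ X.W j (X.deg j + e), (X.N j ^ e) x ∈ X.W j (X.deg j + -(e : ℤ)) := by
    intro x hx
    have := pow_mem_grade (X.W j) (X.N j) (X.lower j) e _ x hx
    convert this using 2
    ring
  have h2 : Function.Bijective ((X.N j ^ e).restrict hN) := by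
    constructor
    · rw [← LinearMap.ker_eq_bot, LinearMap.ker_eq_bot']
      intro x hx
      apply Subtype.ext
      exact hs.2 e x.1 x.2 (congrArg Subtype.val hx)
    · intro y
      obtain ⟨x, hx, hxy⟩ := hs.1 e y.1 (by
        rw [sub_eq_add_neg]
        exact y.2)
      exact ⟨⟨x, hx⟩, Subtype.ext hxy⟩
  have hd2 := LinearEquiv.finrank_eq (LinearEquiv.ofBijective _ h2)
  have h3 := hd e
  have h4 := hd (-(e : ℤ))
  rw [neg_neg] at h4
  refine surj_of_dim (fun w => X.W j' (X.deg j' + w)) (X.N j') (X.lower' j') e ?_ (hinj e) y ?_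
  · rw [← h4, ← h3, hd2]
  · rwa [← sub_eq_add_neg]

end LogCoh

theorem ActsAsSo.traceNondeg {g : Submodule F (∀ j, Module.End F (H j))} {j : J}
    {b : LinearMap.BilinForm F (H j)} (hg : ActsAsSo g j b) (hb : Nondeg b) :
    TraceNondeg g {j} := by
  intro Y hY h0
  apply hg.faithful Y hY
  apply so_nondeg b hg.symm hb.1 (Y j) (hg.skew Y hY)
  intro Z hZ
  obtain ⟨Z', hZ', rfl⟩ := hg.lift Z hZ
  simpa using h0 Z' hZ'

/-- The case of a space `g` which acts faithfully on `H j` as the orthogonal Lie algebra of a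
nondegenerate form: if `P = M` holds on `H j`, or on a group of a section in which it is contained,
then `P = M` holds on all `H l`. -/
theorem ActsAsSo.pm [Fintype J] {X : LogCoh F H} {g : Submodule F (∀ j, Module.End F (H j))}
    {j : J} {b : LinearMap.BilinForm F (H j)} (hso : ActsAsSo g j b) (hb : Nondeg b)
    (hg : X.Stable g)
    (hj : X.PM j ∨ ∃ (H' : Unit → Type) (_ : ∀ k, AddCommGroup (H' k))
      (_ : ∀ k, Module F (H' k)) (_ : ∀ k, FiniteDimensional F (H' k)) (Z : LogCoh F H')
      (i : H j →ₗ[F] H' ()), X.IsSection Z i ∧ Z.PM ()) (l : J) : X.PM l := by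
  refine X.crit_pm g {j} hg ?_ (hso.traceNondeg hb) l
  intro i hi
  rw [Finset.mem_singleton] at hi
  subst hi
  rcases hj with h | ⟨H', _, _, _, Z, i', hi', hk⟩
  · exact h
  · exact hi'.pm hk b hb (hso.skew _ hg.h_mem)

end Pool.Agent.MP_f8720a_ag.HK
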