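import Mathlib

/-!
# The monodromy filtration
-/

namespace Pool.Agent.MP_f8720a_ag.HK

variable {F H : Type} [Field F] [AddCommGroup H] [Module F H]

/-- `N ^ e` induces an isomorphism `gr_(q+e) → gr_(q-e)`. -/
def StepIso (N : Module.End F H) (P : ℤ → Submodule F H) (q : ℤ) (e : ℕ) : Prop :=
  (∀ x ∈ P (q + e), (N ^ e) x ∈ P (q - e - 1) → x ∈ P (q + e - 1)) ∧
    ∀ y ∈ P (q - e), ∃ x ∈ P (q + e), y - (N ^ e) x ∈ P (q - e - 1)

/-- `M` is the monodromy filtration of `N` centred at `q`. -/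
structure IsMonodromy (N : Module.End F H) (q : ℤ) (M : ℤ → Submodule F H) : Prop where
  mono : Monotone M
  bot : ∃ k, M k = ⊥
  top : ∃ k, M k = ⊤
  step : ∀ k, (M k).map N ≤ M (k - 2)
  iso : ∀ e : ℕ, 1 ≤ e → StepIso N M q e

/-- The properties of the weight filtration `P` of `H = H^q` stated in the problem: it is
increasing, the weights are between `0` and `2 q`, and `N (P k) ⊆ P (k - 2)`. -/
structure IsWeight (N : Module.End F H) (q : ℕ) (P : ℤ → Submodule F H) : Prop where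
  mono : Monotone P
  bot : P (-1) = ⊥
  top : P (2 * q) = ⊤
  step : ∀ k, (P k).map N ≤ P (k - 2)

/-- The graded piece `gr_k = P_k / P_(k-1)`. -/
abbrev Gr (P : ℤ → Submodule F H) (k : ℤ) : Type :=
  P k ⧸ (P (k - 1)).comap (P k).subtype

end Pool.Agent.MP_f8720a_ag.HK
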