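import Mathlib

/-!
# Graded representations of `sl_2`

PLAN. (i) finite dimension: G (j + 2 m) = bot for large m (iSupIndep from hG, finitely many nonzero).
(ii) Lemma L: j >= 0, c > 0 natural, x in G j, N (E x) = -c x imply x = 0: by induction
N (E^(m+1) x) = -(c + m (j + m + 1)) E^m x, so E^m x is nonzero for all m if x is, contradiction to (i).
(iii) for x in G e and k: E (N^k x) = N^k (E x) + k (e - k + 1) N^(k-1) x (induction on k).
(iv) for k <= e, N^k is injective on G e, by induction on k: if N^(k+1) x = 0, k + 1 <= e, then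
N^k (N E x + (k+1)(e-k) x) = 0, the vector in brackets is in G e, so it is 0 and x = 0 by L.
(v) the same for G' j = G (-j), N' = E, E' = N gives E^e injective G (-e) -> G e, so the dimensions
of G e and G (-e) agree and N^e is surjective.
-/

namespace Pool.Agent.MP_f8720a_ag.HK

variable {F V : Type} [Field F] [CharZero F] [AddCommGroup V] [Module F V]
  [FiniteDimensional F V]

private theorem pow_mem (G : ℤ → Submodule F V) (N : Module.End F V) (s : ℤ)
    (hN : ∀ j, ∀ x ∈ G j, N x ∈ G (j + s)) (j : ℤ) (x : V) (hx : x ∈ G j) (k : ℕ) :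
    (N ^ k) x ∈ G (j + k * s) := by
  induction k with
  | zero => simpa using hx
  | succ k ih =>
    have h := hN _ _ ih
    rw [pow_succ', Module.End.mul_apply]
    have e : j + ((k + 1 : ℕ) : ℤ) * s = j + k * s + s := by push_cast; ring
    rw [e]
    exact h

private theorem exists_bot (G : ℤ → Submodule F V) (hf : {j | G j ≠ ⊥}.Finite) (j : ℤ) :
    ∃ m : ℕ, G (j + m * 2) = ⊥ := by
  by_contra hcon
  push Not at hcon
  have h1 : Set.range (fun m : ℕ => j + (m : ℤ) * 2) ⊆ {j | G j ≠ ⊥} := by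
    rintro _ ⟨m, rfl⟩
    exact hcon m
  have h2 : (Set.range (fun m : ℕ => j + (m : ℤ) * 2)).Infinite := by
    refine Set.infinite_range_of_injective fun a b h => ?_
    have h3 : j + (a : ℤ) * 2 = j + (b : ℤ) * 2 := h
    omega
  exact h2 (hf.subset h1)

private theorem lemL (G : ℤ → Submodule F V) (hf : {j | G j ≠ ⊥}.Finite) (N E : Module.End F V)
    (hE : ∀ j, ∀ x ∈ G j, E x ∈ G (j + 2))
    (hEN : ∀ j, ∀ x ∈ G j, E (N x) - N (E x) = (j : F) • x) (j c : ℕ) (hc : 0 < c) (x : V)
    (hx : x ∈ G j) (h : N (E x) = -((c : F) • x)) : x = 0 := by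
  have key : ∀ m : ℕ, N ((E ^ (m + 1)) x) = -(((c + m * (j + m + 1) : ℕ) : F) • (E ^ m) x) := by
    intro m
    induction m with
    | zero => simpa using h
    | succ m ih =>
      have hy := pow_mem G E 2 hE j x hx (m + 1)
      have h1 := hEN _ _ hy
      have h2 : N (E ((E ^ (m + 1)) x)) = E (N ((E ^ (m + 1)) x)) -
          (((j : ℤ) + ((m + 1 : ℕ) : ℤ) * 2 : ℤ) : F) • (E ^ (m + 1)) x := by
        rw [← h1]; abel
      rw [pow_succ' E (m + 1), Module.End.mul_apply, h2, ih, map_neg, map_smul]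
      rw [← Module.End.mul_apply, ← pow_succ' E m]
      rw [← neg_add', ← add_smul]
      congr 2
      push_cast
      ring
  obtain ⟨M, hM⟩ := exists_bot G hf j
  have h0 : (E ^ M) x = 0 := by
    have := pow_mem G E 2 hE j x hx M
    rw [hM] at this
    simpa using this
  clear hM
  induction M with
  | zero => simpa using h0
  | succ m ih =>
    apply ih
    have h1 := key m
    rw [h0, map_zero] at h1
    have h2 : ((c + m * (j + m + 1) : ℕ) : F) • (E ^ m) x = 0 := by
      rw [← neg_eq_zero]; exact h1.symm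
    rcases smul_eq_zero.1 h2 with h3 | h3
    · exfalso
      have : c + m * (j + m + 1) = 0 := by exact_mod_cast h3
      omega
    · exact h3

private theorem comm (G : ℤ → Submodule F V) (N E : Module.End F V)
    (hN : ∀ j, ∀ x ∈ G j, N x ∈ G (j - 2))
    (hEN : ∀ j, ∀ x ∈ G j, E (N x) - N (E x) = (j : F) • x) (e : ℤ) (x : V)
    (hx : x ∈ G e) (k : ℕ) :
    E ((N ^ (k + 1)) x) = (N ^ (k + 1)) (E x) + (((k + 1) * (e - k) : ℤ) : F) • (N ^ k) x := by
  have hN' : ∀ j, ∀ x ∈ G j, N x ∈ G (j + (-2)) := fun j x hx => hN j x hx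
  induction k with
  | zero =>
    have h1 := hEN _ _ hx
    simp only [zero_add, pow_one, pow_zero, Module.End.one_apply]
    have : E (N x) = N (E x) + (e : F) • x := by rw [← h1]; abel
    rw [this]
    simp
  | succ k ih =>
    have hy := pow_mem G N (-2) hN' e x hx (k + 1)
    have h1 := hEN _ _ hy
    have h2 : E (N ((N ^ (k + 1)) x)) = N (E ((N ^ (k + 1)) x)) +
        ((e + ((k + 1 : ℕ) : ℤ) * (-2) : ℤ) : F) • (N ^ (k + 1)) x := by
      rw [← h1]; abel
    rw [pow_succ' N (k + 1), Module.End.mul_apply, h2, ih, map_add, map_smul,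
      Module.End.mul_apply, ← Module.End.mul_apply N (N ^ k), ← pow_succ' N k, add_assoc,
      ← add_smul]
    congr 2
    push_cast
    ring

private theorem inj (G : ℤ → Submodule F V) (hf : {j | G j ≠ ⊥}.Finite) (N E : Module.End F V)
    (hN : ∀ j, ∀ x ∈ G j, N x ∈ G (j - 2)) (hE : ∀ j, ∀ x ∈ G j, E x ∈ G (j + 2))
    (hEN : ∀ j, ∀ x ∈ G j, E (N x) - N (E x) = (j : F) • x) (e k : ℕ) (hk : k ≤ e) :
    ∀ x ∈ G e, (N ^ k) x = 0 → x = 0 := by
  induction k with
  | zero => intro x _ h; simpa using h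
  | succ k ih =>
    intro x hx h
    have h1 := comm G N E hN hEN e x hx k
    rw [h, map_zero, pow_succ N k, Module.End.mul_apply, ← map_smul, ← map_add] at h1
    have hmem : N (E x) ∈ G e := by
      have := hN _ _ (hE _ _ hx)
      simpa using this
    have h2 := ih (by omega) _ (Submodule.add_mem _ hmem (Submodule.smul_mem _ _ hx)) h1.symm
    have h3 : ((((k : ℤ) + 1) * ((e : ℤ) - k) : ℤ) : F) = (((k + 1) * (e - k) : ℕ) : F) := by
      have : (((k : ℤ) + 1) * ((e : ℤ) - k) : ℤ) = (((k + 1) * (e - k) : ℕ) : ℤ) := by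
        rw [Nat.cast_mul, Nat.cast_sub (by omega : k ≤ e)]
        push_cast
        ring
      rw [this]
      norm_cast
    refine lemL G hf N E hE hEN e ((k + 1) * (e - k)) ?_ x hx ?_
    · have : 0 < e - k := by omega
      positivity
    · rw [← h3]
      exact eq_neg_of_add_eq_zero_left h2

/-- For operators `N`, `E` of degrees `-2`, `2` with `E N - N E = j` on `G j`, the map
`N ^ e : G e → G (-e)` is bijective. -/
theorem sl2 (G : ℤ → Submodule F V) (hG : DirectSum.IsInternal G) (N E : Module.End F V)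
    (hN : ∀ j, ∀ x ∈ G j, N x ∈ G (j - 2)) (hE : ∀ j, ∀ x ∈ G j, E x ∈ G (j + 2))
    (hEN : ∀ j, ∀ x ∈ G j, E (N x) - N (E x) = (j : F) • x) (e : ℕ) :
    (∀ x ∈ G e, (N ^ e) x = 0 → x = 0) ∧ ∀ y ∈ G (-e), ∃ x ∈ G e, (N ^ e) x = y := by
  have hf : {j | G j ≠ ⊥}.Finite :=
    WellFoundedGT.finite_ne_bot_of_iSupIndep hG.submodule_iSupIndep
  have hf' : {j | (fun j => G (-j)) j ≠ ⊥}.Finite := hf.preimage neg_injective.injOn
  have h1 := inj G hf N E hN hE hEN e e le_rfl
  have h2 := inj (fun j => G (-j)) hf' E N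
    (fun j x hx => by
      have := hE _ x hx
      have e1 : -j + 2 = -(j - 2) := by ring
      rw [e1] at this
      exact this)
    (fun j x hx => by
      have := hN _ x hx
      have e1 : -j - 2 = -(j + 2) := by ring
      rw [e1] at this
      exact this)
    (fun j x hx => by
      have := hEN _ x hx
      rw [← neg_sub, this]
      push_cast
      rw [neg_smul, neg_neg]) e e le_rfl
  refine ⟨h1, ?_⟩
  have hN' : ∀ j, ∀ x ∈ G j, N x ∈ G (j + (-2)) := fun j x hx => hN j x hx
  have m1 : ∀ x ∈ G e, (N ^ e) x ∈ G (-e) := by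
    intro x hx
    have := pow_mem G N (-2) hN' e x hx e
    have e1 : (e : ℤ) + e * (-2) = -e := by ring
    rw [e1] at this
    exact this
  have m2 : ∀ x ∈ G (-e), (E ^ e) x ∈ G e := by
    intro x hx
    have := pow_mem G E 2 hE (-e) x hx e
    have e1 : -(e : ℤ) + e * 2 = e := by ring
    rw [e1] at this
    exact this
  let f : G e →ₗ[F] G (-e) := (N ^ e).restrict m1
  let g : G (-e) →ₗ[F] G e := (E ^ e).restrict m2
  have fi : Function.Injective f := by
    rw [injective_iff_map_eq_zero]
    rintro ⟨x, hx⟩ h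
    have : (N ^ e) x = 0 := congrArg Subtype.val h
    exact Subtype.ext (h1 x hx this)
  have gi : Function.Injective g := by
    rw [injective_iff_map_eq_zero]
    rintro ⟨x, hx⟩ h
    have : (E ^ e) x = 0 := congrArg Subtype.val h
    exact Subtype.ext (h2 x hx this)
  have hd : Module.finrank F (G e) = Module.finrank F (G (-e)) :=
    le_antisymm (LinearMap.finrank_le_finrank_of_injective fi)
      (LinearMap.finrank_le_finrank_of_injective gi)
  have fs : Function.Surjective f :=
    (LinearMap.injective_iff_surjective_of_finrank_eq_finrank hd).1 fi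
  intro y hy
  obtain ⟨⟨x, hx⟩, h⟩ := fs ⟨y, hy⟩
  exact ⟨x, hx, congrArg Subtype.val h⟩

end Pool.Agent.MP_f8720a_ag.HK
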