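import Pool.Agent.Lib.MP_f8720a_ag.HK.StrDefs
import Pool.Agent.Lib.MP_f8720a_ag.HK.Proj

/-!
# Strings and surjectivity
-/

namespace Pool.Agent.MP_f8720a_ag.HK

variable {F V : Type} [Field F] [AddCommGroup V] [Module F V] [FiniteDimensional F V]

theorem strings_eq_top (G : ℤ → Submodule F V) (hG : DirectSum.IsInternal G)
    (N : Module.End F V) (hN : ∀ j, ∀ x ∈ G j, N x ∈ G (j - 2))
    (hS : ∀ e : ℕ, ∀ y ∈ G (-e), ∃ x ∈ G e, (N ^ e) x = y) : strings G N = ⊤ := by
  obtain ⟨-, s, -, -, -, hs, -⟩ := proj G hG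
  have hpow : ∀ (k : ℕ) (j : ℤ), ∀ x ∈ G j, (N ^ k) x ∈ G (j - 2 * k) := by
    intro k
    induction k with
    | zero =>
      intro j x hx
      rw [pow_zero, Nat.cast_zero, mul_zero, sub_zero]
      exact hx
    | succ k ih =>
      intro j x hx
      rw [pow_succ', Module.End.mul_apply]
      have h1 := hN _ _ (ih j x hx)
      rwa [show j - 2 * (k : ℤ) - 2 = j - 2 * ((k + 1 : ℕ) : ℤ) by push_cast; ring] at h1
  have hstab : ∀ x ∈ strings G N, N x ∈ strings G N := by
    intro x hx
    induction hx using Submodule.span_induction with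
    | mem x hx =>
      obtain ⟨a, k, p, h1, h2, rfl⟩ := hx
      refine Submodule.subset_span ⟨a, k + 1, p, h1, h2, ?_⟩
      rw [pow_succ', Module.End.mul_apply]
    | zero =>
      rw [map_zero]
      exact Submodule.zero_mem _
    | add x y _ _ hx hy =>
      rw [map_add]
      exact Submodule.add_mem _ hx hy
    | smul c x _ hx =>
      rw [map_smul]
      exact Submodule.smul_mem _ c hx
  have hstab' : ∀ (k : ℕ), ∀ x ∈ strings G N, (N ^ k) x ∈ strings G N := by
    intro k
    induction k with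
    | zero =>
      intro x hx
      rw [pow_zero]
      exact hx
    | succ k ih =>
      intro x hx
      rw [pow_succ', Module.End.mul_apply]
      exact hstab _ (ih x hx)
  -- a bound for the degrees
  obtain ⟨M, hM⟩ : ∃ M : ℕ, ∀ a : ℕ, M < a → G a = ⊥ := by
    refine ⟨∑ k ∈ s, k.natAbs, fun a ha => hs _ fun has => ?_⟩
    have h1 : (a : ℤ).natAbs ≤ ∑ k ∈ s, k.natAbs := Finset.single_le_sum (f := fun k : ℤ => k.natAbs) (fun _ _ => Nat.zero_le _) has
    rw [Int.natAbs_natCast] at h1
    omega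
  have hA : ∀ d a : ℕ, M < a + d → ∀ x ∈ G a, x ∈ strings G N := by
    intro d
    induction d with
    | zero =>
      intro a ha x hx
      rw [hM a ha, Submodule.mem_bot] at hx
      rw [hx]
      exact Submodule.zero_mem _
    | succ d ih =>
      intro a ha x hx
      have h1 : (N ^ (a + 1)) x ∈ G (-((a + 2 : ℕ) : ℤ)) := by
        have h2 := hpow (a + 1) a x hx
        rwa [show (a : ℤ) - 2 * ((a + 1 : ℕ) : ℤ) = -((a + 2 : ℕ) : ℤ) by push_cast; ring] at h2
      obtain ⟨u, hu, hu'⟩ := hS (a + 2) _ h1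
      have h2 : N u ∈ G a := by
        have h3 := hN _ u hu
        rwa [show ((a + 2 : ℕ) : ℤ) - 2 = a by push_cast; ring] at h3
      have h3 : x - N u ∈ strings G N := by
        refine Submodule.subset_span ⟨a, 0, x - N u, Submodule.sub_mem _ hx h2, ?_, ?_⟩
        · rw [map_sub, ← Module.End.mul_apply, ← pow_succ, hu', sub_self]
        · rw [pow_zero]
          rfl
      have h4 : N u ∈ strings G N := hstab u (ih (a + 2) (by omega) u hu)
      have h5 := Submodule.add_mem _ h3 h4
      rwa [sub_add_cancel] at h5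
  rw [eq_top_iff, ← hG.submodule_iSup_eq_top, iSup_le_iff]
  intro k y hy
  rcases Int.le_total 0 k with hk | hk
  · obtain ⟨a, rfl⟩ := Int.eq_ofNat_of_zero_le hk
    exact hA (M + 1) a (by omega) y hy
  · obtain ⟨e, he⟩ := Int.eq_ofNat_of_zero_le (show 0 ≤ -k by omega)
    have hk' : k = -(e : ℤ) := by omega
    subst hk'
    obtain ⟨x, hx, rfl⟩ := hS e y hy
    exact hstab' e x (hA (M + 1) e (by omega) x hx)

end Pool.Agent.MP_f8720a_ag.HK
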