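import Mathlib

/-!
# Strings

The subspace spanned by the symmetric strings of an operator of degree `-2`.
-/

namespace Pool.Agent.MP_f8720a_ag.HK

/-- The span of the vectors `N ^ k p` with `p` of degree `a ≥ 0` and `N ^ (a + 1) p = 0`. -/
def strings {F V : Type} [Field F] [AddCommGroup V] [Module F V] (G : ℤ → Submodule F V)
    (N : Module.End F V) : Submodule F V :=
  Submodule.span F {x | ∃ (a k : ℕ) (p : V), p ∈ G a ∧ (N ^ (a + 1)) p = 0 ∧ x = (N ^ k) p}

end Pool.Agent.MP_f8720a_ag.HK
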