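import Pool.Agent.Lib.MP_f8720a_ag.HK.Str
import Pool.Agent.Lib.MP_f8720a_ag.HK.Sl2

/-!
# Products of two strings

Let V = (Fin (a+1) x Fin (b+1) -> F), u i j the standard vectors (0 for i > a or j > b), with operators
N0 (u i j) = u (i+1) j + u i (j+1) and E0 (u i j) = i (a - i + 1) u (i-1) j + j (b - j + 1) u i (j-1).
Then (E0 N0 - N0 E0) (u i j) = (a - 2i + b - 2j) u i j. The eigenspaces of this operator are a grading,
by `sl2` and `strings_eq_top` the strings span V, and u i j |-> v i j maps strings to strings.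
-/

namespace Pool.Agent.MP_f8720a_ag.HK

private theorem tens_model {F : Type} [Field F] (a b : ℕ) :
    ∃ (u : ℕ → ℕ → (Fin (a + 1) × Fin (b + 1) → F)) (N E : Module.End F (Fin (a + 1) × Fin (b + 1) → F)),
      (∀ p : Fin (a + 1) × Fin (b + 1), Pi.basisFun F _ p = u p.1 p.2) ∧
      (∀ i j, a < i ∨ b < j → u i j = 0) ∧
      (∀ i j, N (u i j) = u (i + 1) j + u i (j + 1)) ∧
      (∀ i j, E (u i j) = ((i : F) * (a - i + 1)) • u (i - 1) j + ((j : F) * (b - j + 1)) • u i (j - 1)) := by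
  classical
  let u : ℕ → ℕ → (Fin (a + 1) × Fin (b + 1) → F) :=
    fun i j p => if (p.1 : ℕ) = i ∧ (p.2 : ℕ) = j then 1 else 0
  have hu : ∀ p : Fin (a + 1) × Fin (b + 1), Pi.basisFun F _ p = u p.1 p.2 := by
    intro p
    rw [Pi.basisFun_apply]
    funext q
    by_cases hq : q = p
    · subst hq
      simp [u]
    · rw [Pi.single_eq_of_ne hq]
      have h1 : ¬ ((q.1 : ℕ) = p.1 ∧ (q.2 : ℕ) = p.2) := by
        intro h
        exact hq (Prod.ext (Fin.ext h.1) (Fin.ext h.2))
      simp only [u, if_neg h1]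
  have hu0 : ∀ i j, a < i ∨ b < j → u i j = 0 := by
    intro i j hij
    funext p
    have h1 := p.1.isLt
    have h2 := p.2.isLt
    have h3 : ¬ ((p.1 : ℕ) = i ∧ (p.2 : ℕ) = j) := by omega
    simp only [u, if_neg h3, Pi.zero_apply]
  have hup : ∀ i j, i ≤ a → j ≤ b → ∃ p : Fin (a + 1) × Fin (b + 1), (p.1 : ℕ) = i ∧ (p.2 : ℕ) = j :=
    fun i j hi hj => ⟨(⟨i, by omega⟩, ⟨j, by omega⟩), rfl, rfl⟩
  refine ⟨u, (Pi.basisFun F _).constr F (fun p => u (p.1 + 1) p.2 + u p.1 (p.2 + 1)),
    (Pi.basisFun F _).constr F (fun p => (((p.1 : ℕ) : F) * (a - (p.1 : ℕ) + 1)) • u (p.1 - 1) p.2 +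
      (((p.2 : ℕ) : F) * (b - (p.2 : ℕ) + 1)) • u p.1 (p.2 - 1)), hu, hu0, ?_, ?_⟩
  · intro i j
    by_cases hij : a < i ∨ b < j
    · rw [hu0 i j hij, hu0 (i + 1) j (by omega), hu0 i (j + 1) (by omega), map_zero, add_zero]
    · obtain ⟨p, rfl, rfl⟩ := hup i j (by omega) (by omega)
      rw [← hu p, Module.Basis.constr_basis]
  · intro i j
    by_cases hij : a < i ∨ b < j
    · rw [hu0 i j hij, map_zero]
      have h1 : ((i : F) * (a - i + 1)) • u (i - 1) j = 0 := by
        by_cases hi : i = a + 1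
        · subst hi
          have : ((a + 1 : ℕ) : F) * ((a : F) - ((a + 1 : ℕ) : F) + 1) = 0 := by
            push_cast
            ring
          rw [this, zero_smul]
        · rw [hu0 (i - 1) j, smul_zero]
          rcases hij with h | h
          · left; omega
          · right; omega
      have h2 : ((j : F) * (b - j + 1)) • u i (j - 1) = 0 := by
        by_cases hj : j = b + 1
        · subst hj
          have : ((b + 1 : ℕ) : F) * ((b : F) - ((b + 1 : ℕ) : F) + 1) = 0 := by
            push_cast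
            ring
          rw [this, zero_smul]
        · rw [hu0 i (j - 1), smul_zero]
          rcases hij with h | h
          · left; omega
          · right; omega
      rw [h1, h2, add_zero]
    · obtain ⟨p, rfl, rfl⟩ := hup i j (by omega) (by omega)
      rw [← hu p, Module.Basis.constr_basis]

/-- The products of the elements of two strings lie in the span of the symmetric strings. -/
theorem tens {F V : Type} [Field F] [CharZero F] [AddCommGroup V] [Module F V] (a b : ℕ)
    (G : ℤ → Submodule F V) (N : Module.End F V) (v : ℕ → ℕ → V)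
    (hv : ∀ i j, N (v i j) = v (i + 1) j + v i (j + 1))
    (h0 : ∀ i j, a < i ∨ b < j → v i j = 0)
    (hG : ∀ i j : ℕ, v i j ∈ G (a + b - 2 * (i + j))) (i j : ℕ) : v i j ∈ strings G N := by
  classical
  obtain ⟨u, N₀, E₀, hb, hu0, hN, hE⟩ := tens_model (F := F) a b
  -- the operator with the grading
  let D : Module.End F (Fin (a + 1) × Fin (b + 1) → F) := E₀ * N₀ - N₀ * E₀
  have hD' : ∀ x, D x = E₀ (N₀ x) - N₀ (E₀ x) := fun x => rfl
  have hD : ∀ i j, D (u i j) = ((a : F) + b - 2 * (i + j)) • u i j := by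
    intro i j
    rw [hD', hN, map_add, hE, hE, hE, map_add, map_smul, map_smul, hN, hN]
    have h1 : ((i : F) * (a - i + 1)) • u (i - 1 + 1) j = ((i : F) * (a - i + 1)) • u i j := by
      rcases Nat.eq_zero_or_pos i with h | h
      · subst h; simp
      · rw [Nat.sub_add_cancel h]
    have h2 : ((j : F) * (b - j + 1)) • u i (j - 1 + 1) = ((j : F) * (b - j + 1)) • u i j := by
      rcases Nat.eq_zero_or_pos j with h | h
      · subst h; simp
      · rw [Nat.sub_add_cancel h]
    rw [smul_add, smul_add, h1, h2, Nat.add_sub_cancel, Nat.add_sub_cancel]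
    push_cast
    module
  -- the commutation relations
  have hDN : ∀ x, D (N₀ x) = N₀ (D x) - (2 : F) • N₀ x := by
    intro x
    have : D ∘ₗ N₀ = N₀ ∘ₗ D - (2 : F) • N₀ := by
      refine (Pi.basisFun F _).ext fun p => ?_
      simp only [LinearMap.comp_apply, LinearMap.sub_apply, LinearMap.smul_apply]
      rw [hb p, hN, map_add, hD, hD, hD, map_smul, hN]
      push_cast
      module
    exact LinearMap.congr_fun this x
  have hDE : ∀ x, D (E₀ x) = E₀ (D x) + (2 : F) • E₀ x := by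
    intro x
    have : D ∘ₗ E₀ = E₀ ∘ₗ D + (2 : F) • E₀ := by
      refine (Pi.basisFun F _).ext fun p => ?_
      simp only [LinearMap.comp_apply, LinearMap.add_apply, LinearMap.smul_apply]
      rw [hb p, hD, map_smul, hE, map_add, map_smul, map_smul, hD, hD]
      have h1 : (((p.1 : ℕ) : F) * (a - (p.1 : ℕ) + 1)) • (((a : F) + b - 2 * (((p.1 - 1 : ℕ) : F) + (p.2 : ℕ))) • u (p.1 - 1) p.2) =
          (((p.1 : ℕ) : F) * (a - (p.1 : ℕ) + 1)) • (((a : F) + b - 2 * (((p.1 : ℕ) : F) - 1 + (p.2 : ℕ))) • u (p.1 - 1) p.2) := by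
        rcases Nat.eq_zero_or_pos (p.1 : ℕ) with h | h
        · rw [h]; simp
        · rw [Nat.cast_sub h, Nat.cast_one]
      have h2 : (((p.2 : ℕ) : F) * (b - (p.2 : ℕ) + 1)) • (((a : F) + b - 2 * (((p.1 : ℕ) : F) + ((p.2 - 1 : ℕ) : F))) • u p.1 (p.2 - 1)) =
          (((p.2 : ℕ) : F) * (b - (p.2 : ℕ) + 1)) • (((a : F) + b - 2 * (((p.1 : ℕ) : F) + (((p.2 : ℕ) : F) - 1))) • u p.1 (p.2 - 1)) := by
        rcases Nat.eq_zero_or_pos (p.2 : ℕ) with h | h
        · rw [h]; simp
        · rw [Nat.cast_sub h, Nat.cast_one]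
      rw [h1, h2]
      module
    exact LinearMap.congr_fun this x
  let G₀ : ℤ → Submodule F (Fin (a + 1) × Fin (b + 1) → F) := fun c => D.eigenspace (c : F)
  have hG₀ : ∀ c x, x ∈ G₀ c ↔ D x = (c : F) • x := fun c x => Module.End.mem_eigenspace_iff
  have hint : DirectSum.IsInternal G₀ := by
    apply DirectSum.isInternal_submodule_of_iSupIndep_of_iSup_eq_top
    · exact D.eigenspaces_iSupIndep.comp Int.cast_injective
    · rw [eq_top_iff, ← (Pi.basisFun F (Fin (a + 1) × Fin (b + 1))).span_eq, Submodule.span_le]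
      rintro x ⟨p, rfl⟩
      refine Submodule.mem_iSup_of_mem ((a : ℤ) + b - 2 * (((p.1 : ℕ) : ℤ) + ((p.2 : ℕ) : ℤ))) ?_
      rw [hG₀, hb p, hD]
      push_cast
      rfl
  have hN₀ : ∀ j, ∀ x ∈ G₀ j, N₀ x ∈ G₀ (j - 2) := by
    intro j x hx
    rw [hG₀] at hx ⊢
    rw [hDN, hx, map_smul]
    push_cast
    module
  have hE₀ : ∀ j, ∀ x ∈ G₀ j, E₀ x ∈ G₀ (j + 2) := by
    intro j x hx
    rw [hG₀] at hx ⊢
    rw [hDE, hx, map_smul]
    push_cast
    module
  have hEN : ∀ j, ∀ x ∈ G₀ j, E₀ (N₀ x) - N₀ (E₀ x) = (j : F) • x := by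
    intro j x hx
    rw [hG₀] at hx
    exact hx
  have htop : strings G₀ N₀ = ⊤ :=
    strings_eq_top G₀ hint N₀ hN₀ fun e => (sl2 G₀ hint N₀ E₀ hN₀ hE₀ hEN e).2
  -- the map to `V`
  let Φ : (Fin (a + 1) × Fin (b + 1) → F) →ₗ[F] V :=
    (Pi.basisFun F _).constr F (fun p => v p.1 p.2)
  have hΦb : ∀ p : Fin (a + 1) × Fin (b + 1), Φ (Pi.basisFun F _ p) = v p.1 p.2 :=
    fun p => Module.Basis.constr_basis _ _ _ _
  have hΦ : ∀ i j, Φ (u i j) = v i j := by
    intro i j
    by_cases hij : a < i ∨ b < j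
    · rw [hu0 i j hij, h0 i j hij, map_zero]
    · have h1 : i < a + 1 := by omega
      have h2 : j < b + 1 := by omega
      have h3 := hΦb (⟨i, h1⟩, ⟨j, h2⟩)
      rw [hb] at h3
      exact h3
  have hΦN : ∀ x, Φ (N₀ x) = N (Φ x) := by
    intro x
    have : Φ ∘ₗ N₀ = N ∘ₗ Φ := by
      refine (Pi.basisFun F _).ext fun p => ?_
      simp only [LinearMap.comp_apply]
      rw [hb p, hN, map_add, hΦ, hΦ, hΦ, hv]
    exact LinearMap.congr_fun this x
  have hΦk : ∀ k x, Φ ((N₀ ^ k) x) = (N ^ k) (Φ x) := by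
    intro k
    induction k with
    | zero => intro x; simp
    | succ k ih =>
      intro x
      rw [pow_succ, pow_succ, Module.End.mul_apply, Module.End.mul_apply, ih, hΦN]
  have hcoord : ∀ x p, D x p = ((a : F) + b - 2 * (((p.1 : ℕ) : F) + ((p.2 : ℕ) : F))) * x p := by
    intro x p
    have : (LinearMap.proj p) ∘ₗ D =
        ((a : F) + b - 2 * (((p.1 : ℕ) : F) + ((p.2 : ℕ) : F))) • (LinearMap.proj p : (Fin (a + 1) × Fin (b + 1) → F) →ₗ[F] F) := by
      refine (Pi.basisFun F _).ext fun q => ?_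
      simp only [LinearMap.comp_apply, LinearMap.smul_apply, LinearMap.proj_apply]
      rw [hb q, hD, ← hb q, Pi.smul_apply, Pi.basisFun_apply]
      by_cases hpq : p = q
      · subst hpq; rfl
      · rw [Pi.single_eq_of_ne hpq, smul_zero, smul_zero]
    exact LinearMap.congr_fun this x
  have hΦG : ∀ c, ∀ x ∈ G₀ c, Φ x ∈ G c := by
    intro c x hx
    rw [hG₀] at hx
    have h1 : Φ x = ∑ p, x p • v p.1 p.2 := by
      have h2 := (Pi.basisFun F (Fin (a + 1) × Fin (b + 1))).sum_repr x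
      rw [← h2, map_sum]
      refine Finset.sum_congr rfl fun p _ => ?_
      rw [map_smul, hΦb, h2]
      rfl
    rw [h1]
    refine Submodule.sum_mem _ fun p _ => ?_
    by_cases hp : x p = 0
    · rw [hp, zero_smul]
      exact Submodule.zero_mem _
    · have h3 := hcoord x p
      rw [hx, Pi.smul_apply, smul_eq_mul] at h3
      have h4 := mul_right_cancel₀ hp h3
      have h5 : c = (a : ℤ) + b - 2 * (((p.1 : ℕ) : ℤ) + ((p.2 : ℕ) : ℤ)) := by
        have h6 : ((c : ℤ) : F) = (((a : ℤ) + b - 2 * (((p.1 : ℕ) : ℤ) + ((p.2 : ℕ) : ℤ)) : ℤ) : F) := by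
          rw [h4]
          push_cast
          rfl
        exact Int.cast_injective h6
      rw [h5]
      exact Submodule.smul_mem _ _ (hG _ _)
  have key : ∀ x ∈ strings G₀ N₀, Φ x ∈ strings G N := by
    intro x hx
    unfold strings at hx
    induction hx using Submodule.span_induction with
    | mem x hx =>
      obtain ⟨d, k, p, hp, hp0, rfl⟩ := hx
      refine Submodule.subset_span ⟨d, k, Φ p, hΦG _ p hp, ?_, hΦk k p⟩
      rw [← hΦk, hp0, map_zero]
    | zero => rw [map_zero]; exact Submodule.zero_mem _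
    | add x y _ _ h1 h2 => rw [map_add]; exact Submodule.add_mem _ h1 h2
    | smul c x _ h1 => rw [map_smul]; exact Submodule.smul_mem _ _ h1
  rw [← hΦ i j]
  exact key _ (by rw [htop]; exact Submodule.mem_top)

end Pool.Agent.MP_f8720a_ag.HK
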